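import Mathlib
import Pool.Agent.H36.LH.Mom

/-!
Centred functions of two variables: the sum over all families of sets of primes.
-/

set_option autoImplicit false

open Finset

namespace Pool.Agent.H36.TV

open Pool.Agent.H36.LH

/-- the hypotheses on a centred function modulo `p` -/
structure Ce (e : ℕ → ℕ → ℕ → ℝ) (κ v : ℝ) (T p : ℕ) : Prop where
  per : ∀ x, Per p (fun n => e p n x)
  one : ∀ n x, |e p n x| ≤ 1
  row : ∀ n, ∑ x ∈ Icc 1 T, |e p n x| ≤ T * v ^ 2
  col : ∀ x, avg p (fun n => |e p n x|) ≤ 2 * κ / p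
  mean : ∑ x ∈ Icc 1 T, |avg p (fun n => e p n x)| ≤ T * (2 * κ / p * v)

/-- correlation of the centred functions -/
noncomputable def beta (e : ℕ → ℕ → ℕ → ℝ) (m p : ℕ) (h : Fin m → ℕ) (I : Finset (Fin m)) : ℝ :=
  |avg p (fun n => ∏ i ∈ I, e p n (h i))|

variable {e : ℕ → ℕ → ℕ → ℝ} {κ v : ℝ} {T p : ℕ}

lemma beta_le (h1 : ∀ n x, |e p n x| ≤ 1) (m : ℕ) (h : Fin m → ℕ) (I J : Finset (Fin m)) (hJ : J ⊆ I) :
    beta e m p h I ≤ avg p (fun n => ∏ i ∈ J, |e p n (h i)|) := by
  classical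
  unfold beta
  refine (avg_abs _).trans (avg_mono fun n => ?_)
  rw [abs_prod, ← prod_sdiff hJ]
  apply mul_le_of_le_one_left (prod_nonneg fun _ _ => abs_nonneg _)
  exact prod_le_one (fun _ _ => abs_nonneg _) (fun _ _ => h1 _ _)

lemma beta_empty (m : ℕ) (hp : 0 < p) (h : Fin m → ℕ) : beta e m p h ∅ = 1 := by
  unfold beta
  simp only [prod_empty]
  rw [avg_const hp, abs_one]

set_option maxHeartbeats 1000000 in
theorem step_beta (hc : Ce e κ v T p) (m : ℕ) (hp : p.Prime) (hT : 0 < T) (hκ : 0 ≤ κ) (hv0 : 0 ≤ v) (hv1 : v ≤ 1)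
    (U' I : Finset (Fin m)) (hI : I.Nonempty) (F : (Fin m → ℕ) → ℝ)
    (hF : ∀ h, 0 ≤ F h) (hdep : ∀ h h', (∀ i ∈ U', h i = h' i) → F h = F h') :
    ∑ h ∈ Hs m T, F h * beta e m p h I ≤ 2 * κ / p * v ^ (I \ U').card * ∑ h ∈ Hs m T, F h := by
  classical
  have hp0 : (0 : ℝ) < p := by exact_mod_cast hp.pos
  have hT0 : (0 : ℝ) < T := by exact_mod_cast hT
  have hSF : 0 ≤ ∑ h ∈ Hs m T, F h := sum_nonneg fun h _ => hF h
  have hκp : 0 ≤ 2 * (κ : ℝ) / p := by positivity
  have hs := hc.row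
  have hs0 : ∀ n, 0 ≤ ∑ x ∈ Icc 1 T, |e p n x| := fun n => sum_nonneg fun _ _ => abs_nonneg _
  -- exchange of the sums
  have hex : ∀ (G : ℕ → (Fin m → ℕ) → ℝ), ∑ h ∈ Hs m T, F h * avg p (fun n => G n h) =
      avg p (fun n => ∑ h ∈ Hs m T, F h * G n h) := by
    intro G
    rw [avg_sum]
    apply sum_congr rfl
    intro h _
    rw [avg_const_mul]
  have hupd : ∀ i, i ∉ U' → ∀ h x, F (Function.update h i x) = F h := by
    intro i hi h x
    apply hdep
    intro j hj
    rw [Function.update_of_ne]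
    rintro rfl
    exact hi hj
  rcases Nat.lt_or_ge I.card 2 with hcc | hcc
  · have hc1 : I.card = 1 := by have := hI.card_pos; omega
    obtain ⟨i, rfl⟩ := card_eq_one.1 hc1
    by_cases hi : i ∈ U'
    · have hempty : ({i} : Finset (Fin m)) \ U' = ∅ := by
        rw [sdiff_eq_empty_iff_subset]
        exact singleton_subset_iff.2 hi
      rw [hempty, card_empty, pow_zero, mul_one, mul_sum]
      apply sum_le_sum
      intro h _
      have h1 := beta_le hc.one m h {i} {i} (Subset.refl _)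
      simp only [prod_singleton] at h1
      have h2 := h1.trans (hc.col (h i))
      rw [mul_comm (2 * (κ : ℝ) / p)]
      exact mul_le_mul_of_nonneg_left h2 (hF h)
    · have hcard : (({i} : Finset (Fin m)) \ U').card = 1 := by
        rw [sdiff_eq_self_of_disjoint (disjoint_singleton_left.2 hi), card_singleton]
      rw [hcard, pow_one]
      have h3 := sum_one T i F (fun h x => hupd i hi h x) (fun x => |avg p (fun n => e p n x)|)
      have h5 : (T : ℝ) * ∑ h ∈ Hs m T, F h * beta e m p h {i} ≤ T * (2 * κ / p * v * ∑ h ∈ Hs m T, F h) := by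
        have e1 : ∑ h ∈ Hs m T, F h * beta e m p h {i} = ∑ h ∈ Hs m T, F h * |avg p (fun n => e p n (h i))| := by
          apply sum_congr rfl
          intro h _
          unfold beta
          simp only [prod_singleton]
        rw [e1, h3]
        have h6 := mul_le_mul_of_nonneg_right hc.mean hSF
        linarith
      exact le_of_mul_le_mul_left h5 hT0
  set W := I \ U' with hW
  rcases Nat.lt_or_ge W.card 2 with hw | hw
  · rcases Nat.lt_or_ge W.card 1 with hw1 | hw1
    · -- no new index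
      have hW0 : W.card = 0 := by omega
      rw [hW0, pow_zero, mul_one, mul_sum]
      apply sum_le_sum
      intro h _
      obtain ⟨j, hj⟩ := hI
      have h1 := beta_le hc.one m h I {j} (singleton_subset_iff.2 hj)
      simp only [prod_singleton] at h1
      have h2 := h1.trans (hc.col (h j))
      rw [mul_comm (2 * (κ : ℝ) / p)]
      exact mul_le_mul_of_nonneg_left h2 (hF h)
    · -- one new index
      have hW1 : W.card = 1 := by omega
      obtain ⟨i0, hi0⟩ := card_eq_one.1 hW1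
      have hi0W : i0 ∈ W := by rw [hi0]; exact mem_singleton_self _
      have hi0I : i0 ∈ I := (mem_sdiff.1 hi0W).1
      have hi0U : i0 ∉ U' := (mem_sdiff.1 hi0W).2
      obtain ⟨j, hj, hji⟩ := exists_mem_ne (by omega : 1 < I.card) i0
      have hjU : j ∈ U' := by
        by_contra hjU
        have : j ∈ W := mem_sdiff.2 ⟨hj, hjU⟩
        rw [hi0, mem_singleton] at this
        exact hji this
      have h1 : ∀ h, beta e m p h I ≤ avg p (fun n => |e p n (h j)| * |e p n (h i0)|) := by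
        intro h
        have h2 := beta_le hc.one m h I {j, i0} (by
          intro x hx
          rw [mem_insert, mem_singleton] at hx
          rcases hx with rfl | rfl
          · exact hj
          · exact hi0I)
        simp only [prod_pair hji] at h2
        exact h2
      rw [hW1, pow_one]
      calc ∑ h ∈ Hs m T, F h * beta e m p h I ≤
            ∑ h ∈ Hs m T, F h * avg p (fun n => |e p n (h j)| * |e p n (h i0)|) :=
            sum_le_sum fun h _ => mul_le_mul_of_nonneg_left (h1 h) (hF h)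
        _ = avg p (fun n => ∑ h ∈ Hs m T, F h * (|e p n (h j)| * |e p n (h i0)|)) :=
            hex (fun n h => |e p n (h j)| * |e p n (h i0)|)
        _ ≤ avg p (fun n => v ^ 2 * ∑ h ∈ Hs m T, F h * |e p n (h j)|) := by
            apply avg_mono
            intro n
            have h3 := sum_one T i0 (fun h => F h * |e p n (h j)|) (by
              intro h x
              rw [hupd i0 hi0U h x, Function.update_of_ne hji]) (fun x => |e p n x|)
            have h4 : 0 ≤ ∑ h ∈ Hs m T, F h * |e p n (h j)| :=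
              sum_nonneg fun h _ => mul_nonneg (hF h) (abs_nonneg _)
            have h5 : (T : ℝ) * ∑ h ∈ Hs m T, F h * (|e p n (h j)| * |e p n (h i0)|) ≤
                T * (v ^ 2 * ∑ h ∈ Hs m T, F h * |e p n (h j)|) := by
              have e1 : ∑ h ∈ Hs m T, F h * (|e p n (h j)| * |e p n (h i0)|) =
                  ∑ h ∈ Hs m T, F h * |e p n (h j)| * |e p n (h i0)| :=
                sum_congr rfl fun h _ => by ring
              rw [e1, h3]
              have := mul_le_mul_of_nonneg_right (hs n) h4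
              linarith
            exact le_of_mul_le_mul_left h5 hT0
        _ = v ^ 2 * ∑ h ∈ Hs m T, F h * avg p (fun n => |e p n (h j)|) := by
            rw [avg_const_mul, hex (fun n h => |e p n (h j)|)]
        _ ≤ v ^ 2 * ∑ h ∈ Hs m T, F h * (2 * κ / p) := by
            apply mul_le_mul_of_nonneg_left _ (by positivity)
            exact sum_le_sum fun h _ => mul_le_mul_of_nonneg_left (hc.col (h j)) (hF h)
        _ = v ^ 2 * (2 * κ / p * ∑ h ∈ Hs m T, F h) := by rw [← sum_mul]; ring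
        _ ≤ v * (2 * κ / p * ∑ h ∈ Hs m T, F h) := by
            apply mul_le_mul_of_nonneg_right _ (by positivity)
            rw [sq]
            exact mul_le_of_le_one_left hv0 hv1
        _ = _ := by ring
  · -- many new indices
    have hWI : W ⊆ I := sdiff_subset
    have h1 : ∀ h, beta e m p h I ≤ avg p (fun n => ∏ i ∈ W, |e p n (h i)|) := fun h =>
      beta_le hc.one m h I W hWI
    obtain ⟨a, ha⟩ : ∃ a, W.card = a + 2 := ⟨W.card - 2, by omega⟩
    calc ∑ h ∈ Hs m T, F h * beta e m p h I ≤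
          ∑ h ∈ Hs m T, F h * avg p (fun n => ∏ i ∈ W, |e p n (h i)|) :=
          sum_le_sum fun h _ => mul_le_mul_of_nonneg_left (h1 h) (hF h)
      _ = avg p (fun n => ∑ h ∈ Hs m T, F h * ∏ i ∈ W, |e p n (h i)|) :=
          hex (fun n h => ∏ i ∈ W, |e p n (h i)|)
      _ ≤ avg p (fun n => (v ^ 2) ^ (a + 1) / T * (∑ h ∈ Hs m T, F h) * ∑ x ∈ Icc 1 T, |e p n x|) := by
          apply avg_mono
          intro n
          have h3 := sum_many T (fun x => |e p n x|) W F (fun i hi h x => hupd i (mem_sdiff.1 hi).2 h x)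
          rw [ha] at h3
          have hTa : (0 : ℝ) < (T : ℝ) ^ (a + 2) := by positivity
          have h5 : (T : ℝ) ^ (a + 2) * ∑ h ∈ Hs m T, F h * ∏ i ∈ W, |e p n (h i)| ≤
              (T : ℝ) ^ (a + 2) * ((v ^ 2) ^ (a + 1) / T * (∑ h ∈ Hs m T, F h) * ∑ x ∈ Icc 1 T, |e p n x|) := by
            rw [h3]
            set s := ∑ x ∈ Icc 1 T, |e p n x| with hsdef
            have hs' : s ≤ T * v ^ 2 := hs n
            have hs0' : 0 ≤ s := hs0 n
            have h6 : s ^ (a + 1) ≤ (T * v ^ 2) ^ (a + 1) := pow_le_pow_left₀ hs0' hs' _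
            calc s ^ (a + 2) * ∑ h ∈ Hs m T, F h = s ^ (a + 1) * (s * ∑ h ∈ Hs m T, F h) := by ring
              _ ≤ (T * v ^ 2) ^ (a + 1) * (s * ∑ h ∈ Hs m T, F h) :=
                  mul_le_mul_of_nonneg_right h6 (mul_nonneg hs0' hSF)
              _ = _ := by
                  rw [mul_pow, pow_succ (T : ℝ) (a + 1)]
                  field_simp
          exact le_of_mul_le_mul_left h5 hTa
      _ = (v ^ 2) ^ (a + 1) / T * (∑ h ∈ Hs m T, F h) * ∑ x ∈ Icc 1 T, avg p (fun n => |e p n x|) := by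
          rw [avg_const_mul, avg_sum]
      _ ≤ (v ^ 2) ^ (a + 1) / T * (∑ h ∈ Hs m T, F h) * ∑ x ∈ Icc 1 T, (2 * (κ : ℝ) / p) := by
          apply mul_le_mul_of_nonneg_left _ (by positivity)
          exact sum_le_sum fun x _ => hc.col x
      _ = (v ^ 2) ^ (a + 1) * (2 * κ / p * ∑ h ∈ Hs m T, F h) := by
          rw [sum_const, Nat.card_Icc, nsmul_eq_mul]
          have : ((T + 1 - 1 : ℕ) : ℝ) = T := by simp
          rw [this]
          field_simp
      _ ≤ v ^ (a + 2) * (2 * κ / p * ∑ h ∈ Hs m T, F h) := by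
          apply mul_le_mul_of_nonneg_right _ (by positivity)
          rw [← pow_mul]
          exact pow_le_pow_of_le_one hv0 hv1 (by omega)
      _ = _ := by rw [ha]; ring

/-- the sum over all families with full support -/
theorem comb_beta (m T : ℕ) (P : Finset ℕ) (hP : ∀ p ∈ P, p.Prime) (hT : 0 < T) (κ : ℝ) (hκ : 0 ≤ κ)
    (v : ℝ) (hv0 : 0 ≤ v) (hv1 : v ≤ 1) (hc : ∀ p ∈ P, Ce e κ v T p) :
    ∑ h ∈ Hs m T, AA (fun p h I => if p ∈ P then beta e m p h I else 1) P univ h ≤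
      T ^ m * v ^ m * ∏ p ∈ P, (1 + 4 ^ m * (2 * κ / p)) := by
  classical
  have h := comb (m := m) T (fun p h I => if p ∈ P then beta e m p h I else 1) (2 * κ) v (by positivity) hv0 (by
    intro p h I
    split_ifs
    · unfold beta; exact abs_nonneg _
    · norm_num) (by
    intro p h
    split_ifs with hp
    · exact beta_empty m (hP p hp).pos h
    · rfl) (by
    intro p h h' I hh
    split_ifs
    · unfold beta
      congr 2
      funext n
      exact prod_congr rfl fun i hi => by rw [hh i hi]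
    · rfl) P (by
    intro p hp U' I hI F hF hdep
    simp only [if_pos hp]
    exact step_beta (hc p hp) m (hP p hp) hT hκ hv0 hv1 U' I hI F hF hdep) univ
  rw [card_univ, Fintype.card_fin] at h
  exact h

/-- the coefficients in terms of the centred functions -/
noncomputable def GE (g : ℕ → ℝ) (Vs : Finset (Finset ℕ)) (c : Finset ℕ → ℝ) (E : Finset ℕ) : ℝ :=
  ∑ V ∈ Vs, if E ⊆ V then c V * ∏ p ∈ V \ E, g p else 0

/-- the mean -/
noncomputable def MC (g : ℕ → ℝ) (Vs : Finset (Finset ℕ)) (c : Finset ℕ → ℝ) : ℝ :=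
  ∑ V ∈ Vs, c V * ∏ p ∈ V, g p

lemma SV_expand (u : ℕ → ℝ) (g : ℕ → ℝ) (Vs : Finset (Finset ℕ)) (c : Finset ℕ → ℝ) (P : Finset ℕ)
    (h : ∀ V ∈ Vs, V ⊆ P) :
    ∑ V ∈ Vs, c V * ∏ p ∈ V, u p = ∑ E ∈ P.powerset, GE g Vs c E * ∏ p ∈ E, (u p - g p) := by
  classical
  unfold GE
  have h1 : ∀ E ∈ P.powerset, (∑ V ∈ Vs, if E ⊆ V then c V * ∏ p ∈ V \ E, g p else 0) * ∏ p ∈ E, (u p - g p) =
      ∑ V ∈ Vs, if E ⊆ V then c V * ((∏ p ∈ E, (u p - g p)) * ∏ p ∈ V \ E, g p) else 0 := by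
    intro E _
    rw [sum_mul]
    apply sum_congr rfl
    intro V _
    split_ifs
    · ring
    · ring
  rw [sum_congr rfl h1, sum_comm]
  apply sum_congr rfl
  intro V hV
  have h2 : ∏ p ∈ V, u p = ∏ p ∈ V, ((u p - g p) + g p) := by
    apply prod_congr rfl
    intro p _
    ring
  rw [h2, prod_add, mul_sum, ← sum_filter]
  apply sum_congr _ fun _ _ => rfl
  ext E
  rw [mem_filter, mem_powerset, mem_powerset]
  constructor
  · intro h3
    exact ⟨h3.trans (h V hV), h3⟩
  · exact fun h3 => h3.2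

lemma GE_empty (g : ℕ → ℝ) (Vs : Finset (Finset ℕ)) (c : Finset ℕ → ℝ) : GE g Vs c ∅ = MC g Vs c := by
  classical
  unfold GE MC
  apply sum_congr rfl
  intro V _
  rw [if_pos (empty_subset _), sdiff_empty]

lemma GE_abs (g : ℕ → ℝ) (κ : ℝ) (Vs : Finset (Finset ℕ)) (c : Finset ℕ → ℝ) (P : Finset ℕ) (h : ∀ V ∈ Vs, V ⊆ P)
    (hg : ∀ p, 0 ≤ g p) (hgκ : ∀ p ∈ P, g p ≤ κ / p) (hc : ∀ V, |c V| ≤ 1) (E : Finset ℕ) :
    |GE g Vs c E| ≤ ∏ p ∈ P, (1 + κ / p) := by
  classical
  unfold GE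
  refine (abs_sum_le_sum_abs _ _).trans ?_
  have hg' : ∀ W : Finset ℕ, 0 ≤ ∏ p ∈ W, g p := fun W => prod_nonneg fun p _ => hg p
  have h1 : ∀ V ∈ Vs, |if E ⊆ V then c V * ∏ p ∈ V \ E, g p else 0| ≤
      if E ⊆ V then ∏ p ∈ V \ E, g p else 0 := by
    intro V _
    split_ifs
    · rw [abs_mul, abs_of_nonneg (hg' _)]
      exact mul_le_of_le_one_left (hg' _) (hc V)
    · simp
  refine (sum_le_sum h1).trans ?_
  rw [← sum_filter]
  have hinj : Set.InjOn (fun V : Finset ℕ => V \ E) (↑(Vs.filter (fun V => E ⊆ V)) : Set (Finset ℕ)) := by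
    intro V hV V' hV' hh
    rw [mem_coe, mem_filter] at hV hV'
    simp only at hh
    rw [← sdiff_union_of_subset hV.2, ← sdiff_union_of_subset hV'.2, hh]
  have h2 : ∑ V ∈ Vs.filter (fun V => E ⊆ V), ∏ p ∈ V \ E, g p =
      ∑ W ∈ (Vs.filter (fun V => E ⊆ V)).image (fun V => V \ E), ∏ p ∈ W, g p :=
    (sum_image (f := fun W : Finset ℕ => ∏ p ∈ W, g p) hinj).symm
  rw [h2]
  calc ∑ W ∈ (Vs.filter (fun V => E ⊆ V)).image (fun V => V \ E), ∏ p ∈ W, g p ≤ ∑ W ∈ P.powerset, ∏ p ∈ W, g p := by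
        apply sum_le_sum_of_subset_of_nonneg
        · intro W hW
          obtain ⟨V, hV, rfl⟩ := mem_image.1 hW
          rw [mem_powerset]
          exact sdiff_subset.trans (h V (mem_filter.1 hV).1)
        · intro W _ _
          exact hg' W
    _ = ∏ p ∈ P, (1 + g p) := (prod_one_add P).symm
    _ ≤ ∏ p ∈ P, (1 + κ / p) := by
        apply prod_le_prod
        · intro p _
          have := hg p
          linarith
        · intro p hp
          have := hgκ p hp
          linarith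

set_option maxHeartbeats 1000000 in
/-- the moment over a full period -/
theorem mom (m T : ℕ) (P : Finset ℕ) (hP : ∀ p ∈ P, p.Prime) (hT : 0 < T)
    (u : ℕ → ℕ → ℕ → ℝ) (g : ℕ → ℝ) (κ : ℝ) (hκ : 0 ≤ κ)
    (v : ℝ) (hv0 : 0 ≤ v) (hv1 : v ≤ 1) (hce : ∀ p ∈ P, Ce (fun p n x => u p n x - g p) κ v T p)
    (hg : ∀ p, 0 ≤ g p) (hgκ : ∀ p ∈ P, g p ≤ κ / p) (Q0 : ℕ) (hQ0 : 0 < Q0)
    (hco : ∀ p ∈ P, Nat.Coprime Q0 p) (F0 : ℕ → ℕ → ℝ) (hF0 : ∀ x, Per Q0 (fun n => F0 n x)) (Th : ℝ) (hTh0 : 0 ≤ Th)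
    (hTh : ∀ h : Fin m → ℕ, avg Q0 (fun n => ∏ i, |F0 n (h i)|) ≤ Th)
    (Vs : Finset (Finset ℕ)) (c : Finset ℕ → ℝ) (hVs : ∀ V ∈ Vs, V ⊆ P) (hc : ∀ V, |c V| ≤ 1) :
    avg (Q0 * ∏ p ∈ P, p) (fun n => (∑ x ∈ Icc 1 T, F0 n x * (∑ V ∈ Vs, c V * ∏ p ∈ V, u p n x - MC g Vs c)) ^ m) ≤
      (∏ p ∈ P, (1 + κ / p)) ^ m * Th * (T ^ m * v ^ m * ∏ p ∈ P, (1 + 4 ^ m * (2 * κ / p))) := by
  classical
  set e : ℕ → ℕ → ℕ → ℝ := fun p n x => u p n x - g p with he
  set G0 : ℝ := ∏ p ∈ P, (1 + κ / p) with hG0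
  have hG00 : 0 ≤ G0 := prod_nonneg fun p _ => by positivity
  set Es := P.powerset.erase ∅ with hEs
  have hdiff : ∀ n x, ∑ V ∈ Vs, c V * ∏ p ∈ V, u p n x - MC g Vs c = ∑ E ∈ Es, GE g Vs c E * ∏ p ∈ E, e p n x := by
    intro n x
    rw [SV_expand (fun p => u p n x) g Vs c P hVs, ← add_sum_erase P.powerset _ (empty_mem_powerset P), GE_empty,
      prod_empty, mul_one]
    ring
  -- expansion of the power
  have hexp : ∀ n, (∑ x ∈ Icc 1 T, F0 n x * (∑ V ∈ Vs, c V * ∏ p ∈ V, u p n x - MC g Vs c)) ^ m =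
      ∑ h ∈ Hs m T, ∑ E ∈ Fintype.piFinset (fun _ : Fin m => Es), (∏ i, GE g Vs c (E i)) *
        ((∏ i, F0 n (h i)) * ∏ p ∈ P, ∏ i ∈ Ip E p, e p n (h i)) := by
    intro n
    have e1 : (∑ x ∈ Icc 1 T, F0 n x * (∑ V ∈ Vs, c V * ∏ p ∈ V, u p n x - MC g Vs c)) ^ m =
        ∏ _i : Fin m, ∑ x ∈ Icc 1 T, F0 n x * (∑ V ∈ Vs, c V * ∏ p ∈ V, u p n x - MC g Vs c) := by
      rw [prod_const, card_univ, Fintype.card_fin]
    rw [e1, prod_univ_sum]
    unfold Hs
    apply sum_congr rfl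
    intro h _
    rw [prod_mul_distrib]
    have e2 : ∏ i : Fin m, (∑ V ∈ Vs, c V * ∏ p ∈ V, u p n (h i) - MC g Vs c) =
        ∑ E ∈ Fintype.piFinset (fun _ : Fin m => Es), ∏ i, (GE g Vs c (E i) * ∏ p ∈ E i, e p n (h i)) := by
      have e5 := prod_univ_sum (fun _ : Fin m => Es) (fun (i : Fin m) (E : Finset ℕ) => GE g Vs c E * ∏ p ∈ E, e p n (h i))
      rw [← e5]
      apply prod_congr rfl
      intro i _
      exact hdiff _ _
    rw [e2, mul_sum]
    apply sum_congr rfl
    intro E hE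
    rw [prod_mul_distrib]
    have e3 : ∏ i : Fin m, ∏ p ∈ E i, e p n (h i) = ∏ p ∈ P, ∏ i ∈ Ip E p, e p n (h i) := by
      have e4 : ∀ i, ∏ p ∈ E i, e p n (h i) = ∏ p ∈ P, if p ∈ E i then e p n (h i) else 1 := by
        intro i
        rw [← prod_filter]
        apply prod_congr _ fun _ _ => rfl
        ext p
        rw [mem_filter]
        constructor
        · intro hp
          refine ⟨?_, hp⟩
          rw [Fintype.mem_piFinset] at hE
          have := (mem_erase.1 (hE i)).2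
          exact mem_powerset.1 this hp
        · exact fun hp => hp.2
      rw [prod_congr rfl fun i _ => e4 i, prod_comm]
      apply prod_congr rfl
      intro p _
      unfold Ip
      rw [prod_filter]
    rw [e3]
    ring
  have havg : avg (Q0 * ∏ p ∈ P, p) (fun n => (∑ x ∈ Icc 1 T, F0 n x * (∑ V ∈ Vs, c V * ∏ p ∈ V, u p n x - MC g Vs c)) ^ m) =
      ∑ h ∈ Hs m T, ∑ E ∈ Fintype.piFinset (fun _ : Fin m => Es), (∏ i, GE g Vs c (E i)) *
        (avg Q0 (fun n => ∏ i, F0 n (h i)) * ∏ p ∈ P, avg p (fun n => ∏ i ∈ Ip E p, e p n (h i))) := by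
    rw [funext hexp, avg_sum]
    apply sum_congr rfl
    intro h _
    rw [avg_sum]
    apply sum_congr rfl
    intro E _
    rw [avg_const_mul]
    congr 1
    have h1 : Per Q0 (fun n => ∏ i, F0 n (h i)) := Per.prod _ fun i _ => hF0 (h i)
    exact avg_prod Q0 hQ0 h1 (fun p n => ∏ i ∈ Ip E p, e p n (h i)) P
      (fun p hp => ⟨hP p hp, hco p hp⟩) (fun p hp => Per.prod _ fun i _ => (hce p hp).per (h i))
  rw [havg]
  have hterm : ∀ h ∈ Hs m T, ∀ E ∈ Fintype.piFinset (fun _ : Fin m => Es), (∏ i, GE g Vs c (E i)) *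
        (avg Q0 (fun n => ∏ i, F0 n (h i)) * ∏ p ∈ P, avg p (fun n => ∏ i ∈ Ip E p, e p n (h i))) ≤
      G0 ^ m * Th * ∏ p ∈ P, (if p ∈ P then beta e m p h (Ip E p) else 1) := by
    intro h _ E _
    refine (le_abs_self _).trans ?_
    rw [abs_mul, abs_mul, abs_prod, abs_prod]
    have h1 : ∏ i, |GE g Vs c (E i)| ≤ G0 ^ m := by
      calc ∏ i, |GE g Vs c (E i)| ≤ ∏ _i : Fin m, G0 :=
            prod_le_prod (fun _ _ => abs_nonneg _) fun i _ => GE_abs g κ Vs c P hVs hg hgκ hc (E i)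
        _ = G0 ^ m := by rw [prod_const, card_univ, Fintype.card_fin]
    have h2 : |avg Q0 (fun n => ∏ i, F0 n (h i))| ≤ Th := by
      refine (avg_abs _).trans ?_
      simp only [abs_prod]
      exact hTh h
    have h3 : ∏ p ∈ P, |avg p (fun n => ∏ i ∈ Ip E p, e p n (h i))| =
        ∏ p ∈ P, (if p ∈ P then beta e m p h (Ip E p) else 1) := by
      apply prod_congr rfl
      intro p hp
      rw [if_pos hp]
      rfl
    rw [h3]
    have h4 : 0 ≤ ∏ p ∈ P, (if p ∈ P then beta e m p h (Ip E p) else 1) := by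
      rw [← h3]
      exact prod_nonneg fun _ _ => abs_nonneg _
    rw [mul_assoc]
    exact mul_le_mul h1 (mul_le_mul_of_nonneg_right h2 h4) (mul_nonneg (abs_nonneg _) h4) (pow_nonneg hG00 m)
  have hfam : ∀ h : Fin m → ℕ, ∑ E ∈ Fintype.piFinset (fun _ : Fin m => Es), ∏ p ∈ P, (if p ∈ P then beta e m p h (Ip E p) else 1) =
      AA (fun p h I => if p ∈ P then beta e m p h I else 1) P univ h := by
    intro h
    unfold AA
    apply sum_congr _ fun _ _ => rfl
    ext E
    rw [Fintype.mem_piFinset, mem_filter, Fintype.mem_piFinset]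
    constructor
    · intro h1
      refine ⟨fun i => (mem_erase.1 (h1 i)).2, ?_⟩
      ext i
      simp only [Su, mem_filter, mem_univ, true_and, iff_true]
      exact nonempty_of_ne_empty (mem_erase.1 (h1 i)).1
    · rintro ⟨h1, h2⟩ i
      rw [hEs, mem_erase]
      refine ⟨?_, h1 i⟩
      have : i ∈ Su E := by rw [h2]; exact mem_univ _
      simp only [Su, mem_filter, mem_univ, true_and] at this
      exact this.ne_empty
  calc _ ≤ ∑ h ∈ Hs m T, ∑ E ∈ Fintype.piFinset (fun _ : Fin m => Es),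
        G0 ^ m * Th * ∏ p ∈ P, (if p ∈ P then beta e m p h (Ip E p) else 1) :=
        sum_le_sum fun h hh => sum_le_sum fun E hE => hterm h hh E hE
    _ = G0 ^ m * Th * ∑ h ∈ Hs m T, AA (fun p h I => if p ∈ P then beta e m p h I else 1) P univ h := by
        rw [mul_sum]
        apply sum_congr rfl
        intro h _
        rw [← mul_sum, hfam h]
    _ ≤ _ := by
        apply mul_le_mul_of_nonneg_left _ (by positivity)
        exact comb_beta m T P hP hT κ hκ v hv0 hv1 hce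

end Pool.Agent.H36.TV
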