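import Mathlib
import Pool.Agent.H36.TV.Eps
import Pool.Agent.H36.LH.FinA

/-!
Two variable families of residue classes.
-/

set_option autoImplicit false

open Finset

namespace Pool.Agent.H36.TV

open Pool.Agent.H373R2.T7 Pool.Agent.H36.LH
open Pool.Agent.Helper112.LP Pool.Agent.Helper112.LP.Kba Pool.Agent.Helper112.LP.Kbh
open Pool.Agent.H483R2.BHKD Pool.Agent.H20R2.FL Pool.Agent.H36.RW Pool.Agent.H36.BF
open Pool.Agent.H36.KT

/-- the classes of the second variable for a fixed value of the first -/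
def Sn (S : ℕ → ℕ → ℕ → Prop) (n : ℕ) : ℕ → ℕ → Prop := fun p x => S p n x

/-- the classes of the first variable for a fixed value of the second -/
def Sx (S : ℕ → ℕ → ℕ → Prop) (x : ℕ) : ℕ → ℕ → Prop := fun p n => S p n x

/-- families with few classes in both variables; for almost all values of the second variable there are `μ p`
classes of the first -/
structure TwoB (S : ℕ → ℕ → ℕ → Prop) (μ : ℕ → ℕ) (κ : ℕ) : Prop where
  row : ∀ n, PerB (Sn S n) κ
  col : ∀ x, PerB (Sx S x) κ
  mule : ∀ p, μ p ≤ κ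
  gen : ∀ p : ℕ, p.Prime → ((range p).filter (fun x => nuB (Sx S x) p ≠ μ p)).card ≤ κ

variable {S : ℕ → ℕ → ℕ → Prop} {μ : ℕ → ℕ} {κ : ℕ}

lemma ind_sym (p n x : ℕ) : ind (Sn S n) p x = ind (Sx S x) p n := rfl

lemma tau_sym (Pt : Finset ℕ) (n x : ℕ) : tau (Sn S n) Pt x = tau (Sx S x) Pt n := rfl

lemma SV_sym (Vs : Finset (Finset ℕ)) (c : Finset ℕ → ℝ) (n x : ℕ) : SV (Sn S n) Vs c x = SV (Sx S x) Vs c n := rfl

lemma sum_ind_le {R : ℕ → ℕ → Prop} (hR : PerB R κ) (p : ℕ) (hp : p.Prime) (T : ℕ) :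
    ∑ x ∈ Icc 1 T, ind R p x ≤ ((T : ℝ) / p + 1) * κ := by
  have hp0 : (0 : ℝ) < p := by exact_mod_cast hp.pos
  have hκν : (nuB R p : ℝ) ≤ κ := by exact_mod_cast hR.few p hp
  rw [sum_Icc_range T (fun x => ind R p x)]
  have h3 := sum_per_le hp.pos ((ind_per hR p).shift 1) (fun i => ind_nonneg p _) T
  refine h3.trans ?_
  have h4 : ∑ i ∈ range p, ind R p (i + 1) = nuB R p := by
    have h5 := avg_shift (ind_per hR p) 1
    unfold avg at h5
    rw [div_left_inj' hp0.ne', sum_ind] at h5
    exact h5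
  rw [h4]
  apply mul_le_mul_of_nonneg_left hκν (by positivity)

open Classical in
lemma sum_exc_le (hS : TwoB S μ κ) (p : ℕ) (hp : p.Prime) (T : ℕ) :
    ∑ x ∈ Icc 1 T, (if nuB (Sx S x) p ≠ μ p then (1 : ℝ) else 0) ≤ ((T : ℝ) / p + 1) * κ := by
  have hper : ∀ x, nuB (Sx S (x % p)) p = nuB (Sx S x) p := by
    intro x
    unfold nuB
    congr 1
    apply filter_congr
    intro n _
    exact ((hS.row n).per p x).symm
  have hP : Per p (fun x => if nuB (Sx S x) p ≠ μ p then (1 : ℝ) else 0) := by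
    intro x
    simp only [hper x]
  rw [sum_Icc_range T (fun x => if nuB (Sx S x) p ≠ μ p then (1 : ℝ) else 0)]
  have h3 := sum_per_le hp.pos (hP.shift 1) (fun i => by split_ifs <;> norm_num) T
  refine h3.trans ?_
  have hp0 : (0 : ℝ) < p := by exact_mod_cast hp.pos
  have h4 : ∑ i ∈ range p, (if nuB (Sx S (i + 1)) p ≠ μ p then (1 : ℝ) else 0) =
      ∑ i ∈ range p, (if nuB (Sx S i) p ≠ μ p then (1 : ℝ) else 0) := by
    have h5 := avg_shift hP 1
    unfold avg at h5
    rw [div_left_inj' hp0.ne'] at h5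
    exact h5
  rw [h4]
  apply mul_le_mul_of_nonneg_left _ (by positivity)
  rw [← sum_filter, sum_const, nsmul_eq_mul, mul_one]
  have := hS.gen p hp
  have h5 : ((range p).filter (fun x => nuB (Sx S x) p ≠ μ p)).card ≤ κ := by
    convert this
  exact_mod_cast h5

/-- the centred indicators satisfy the hypotheses -/
lemma ce_of (hS : TwoB S μ κ) (p T : ℕ) (hp : p.Prime) (hT : 0 < T) (hpκ : 2 * κ ≤ p) (v : ℝ) (hv0 : 0 ≤ v) (hv1 : v ≤ 1)
    (hv : (κ : ℝ) * (2 / p + 1 / T) ≤ v ^ 2) :
    Ce (fun p n x => ind (Sn S n) p x - (μ p : ℝ) / p) κ v T p := by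
  classical
  have hp0 : (0 : ℝ) < p := by exact_mod_cast hp.pos
  have hT0 : (0 : ℝ) < T := by exact_mod_cast hT
  have hκ0 : (0 : ℝ) ≤ κ := Nat.cast_nonneg _
  have hμκ : (μ p : ℝ) ≤ κ := by exact_mod_cast hS.mule p
  have hμ0 : 0 ≤ (μ p : ℝ) / p := by positivity
  have hμp : (μ p : ℝ) / p ≤ κ / p := div_le_div_of_nonneg_right hμκ hp0.le
  have hκp : (κ : ℝ) / p ≤ 1 := by
    rw [div_le_one hp0]
    have : ((2 * κ : ℕ) : ℝ) ≤ p := by exact_mod_cast hpκ
    push_cast at this
    linarith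
  refine ⟨?_, ?_, ?_, ?_, ?_⟩
  · intro x n
    simp only [ind_sym]
    rw [ind_per (hS.col x) p n]
  · intro n x
    have h1 := ind_nonneg (R := Sn S n) p x
    have h2 := ind_le_one (R := Sn S n) p x
    rw [abs_le]
    constructor <;> linarith
  · intro n
    have h1 : ∑ x ∈ Icc 1 T, |ind (Sn S n) p x - (μ p : ℝ) / p| ≤ ∑ x ∈ Icc 1 T, (ind (Sn S n) p x + (μ p : ℝ) / p) := by
      apply sum_le_sum
      intro x _
      have h1 := ind_nonneg (R := Sn S n) p x
      rw [abs_le]
      constructor <;> linarith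
    rw [sum_add_distrib, sum_const, Nat.card_Icc, nsmul_eq_mul] at h1
    have h2 := sum_ind_le (hS.row n) p hp T
    have h4 : ((T + 1 - 1 : ℕ) : ℝ) = T := by simp
    rw [h4] at h1
    have h5 : (T : ℝ) * ((μ p : ℝ) / p) ≤ T * (κ / p) := mul_le_mul_of_nonneg_left hμp hT0.le
    calc _ ≤ ((T : ℝ) / p + 1) * κ + T * (κ / p) := by linarith
      _ = T * (κ * (2 / p + 1 / T)) := by field_simp; ring
      _ ≤ T * v ^ 2 := mul_le_mul_of_nonneg_left hv hT0.le
  · intro x
    simp only [ind_sym]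
    have h1 : avg p (fun n => |ind (Sx S x) p n - (μ p : ℝ) / p|) ≤ avg p (fun n => ind (Sx S x) p n + (μ p : ℝ) / p) := by
      apply avg_mono
      intro n
      have h1 := ind_nonneg (R := Sx S x) p n
      rw [abs_le]
      constructor <;> linarith
    have h2 : avg p (fun n => ind (Sx S x) p n + (μ p : ℝ) / p) = avg p (ind (Sx S x) p) + avg p (fun _ => (μ p : ℝ) / p) := by
      unfold avg
      rw [sum_add_distrib, add_div]
    rw [h2, avg_ind, avg_const hp.pos] at h1
    have h3 := gam_le (hS.col x) p hp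
    have h4 : 2 * (κ : ℝ) / p = κ / p + κ / p := by ring
    linarith
  · simp only [ind_sym]
    have h1 : ∀ x ∈ Icc 1 T, |avg p (fun n => ind (Sx S x) p n - (μ p : ℝ) / p)| ≤
        (κ : ℝ) / p * (if nuB (Sx S x) p ≠ μ p then (1 : ℝ) else 0) := by
      intro x _
      have h2 : avg p (fun n => ind (Sx S x) p n - (μ p : ℝ) / p) = avg p (ind (Sx S x) p) - avg p (fun _ => (μ p : ℝ) / p) := by
        unfold avg
        rw [sum_sub_distrib, sub_div]
      rw [h2, avg_ind, avg_const hp.pos]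
      unfold gam
      rw [← sub_div, abs_div, abs_of_pos hp0]
      by_cases h3 : nuB (Sx S x) p = μ p
      · rw [h3, sub_self, abs_zero, zero_div]
        simp
      · rw [if_pos h3, mul_one]
        apply div_le_div_of_nonneg_right _ hp0.le
        have h4 : (nuB (Sx S x) p : ℝ) ≤ κ := by exact_mod_cast (hS.col x).few p hp
        have h5 : (0 : ℝ) ≤ nuB (Sx S x) p := Nat.cast_nonneg _
        have h6 : (0 : ℝ) ≤ μ p := Nat.cast_nonneg _
        rw [abs_le]
        constructor <;> linarith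
    refine (sum_le_sum h1).trans ?_
    rw [← mul_sum]
    have h2 := sum_exc_le hS p hp T
    calc (κ : ℝ) / p * _ ≤ κ / p * (((T : ℝ) / p + 1) * κ) := mul_le_mul_of_nonneg_left h2 (by positivity)
      _ = T * (κ / p * (κ * (1 / p + 1 / T))) := by field_simp
      _ ≤ T * (2 * κ / p * v) := by
          apply mul_le_mul_of_nonneg_left _ hT0.le
          have h3 : (κ : ℝ) * (1 / p + 1 / T) ≤ v ^ 2 := by
            refine le_trans ?_ hv
            apply mul_le_mul_of_nonneg_left _ hκ0
            have : (1 : ℝ) / p ≤ 2 / p := div_le_div_of_nonneg_right (by norm_num) hp0.le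
            linarith
          have h4 : v ^ 2 ≤ v := by
            rw [sq]
            exact mul_le_of_le_one_left hv0 hv1
          calc (κ : ℝ) / p * (κ * (1 / p + 1 / T)) ≤ κ / p * v := mul_le_mul_of_nonneg_left (h3.trans h4) (by positivity)
            _ ≤ 2 * κ / p * v := by
                apply mul_le_mul_of_nonneg_right _ hv0
                apply div_le_div_of_nonneg_right _ hp0.le
                linarith

/-- averages of products of the sieve functions -/
lemma SV_corr (hS : TwoB S μ κ) {P : Finset ℕ} (Vs : Finset (Finset ℕ)) (c : Finset ℕ → ℝ) (hc : ∀ V, |c V| ≤ 1)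
    (hV : ∀ V ∈ Vs, V ⊆ P)
    (hP : ∀ p ∈ P, p.Prime) (Qt : ℕ) (hQt : 0 < Qt) (τ : ℕ → ℕ → ℝ) (hτ : ∀ n x, |τ n x| ≤ 1) (m : ℕ) (h : Fin m → ℕ) :
    avg (Qt * ∏ p ∈ P, p) (fun n => ∏ i, |τ n (h i) * SV (Sn S n) Vs c (h i)|) ≤
      ∏ p ∈ P, (1 + 2 ^ m * m * ((κ : ℝ) / p)) := by
  classical
  have hQ1 : 0 < ∏ p ∈ P, p := prod_pos fun p hp => (hP p hp).pos
  set G : ℕ → ℕ → ℝ := fun p n => ∏ i, (1 + ind (Sx S (h i)) p n) with hG
  have hGper : ∀ p, Per p (G p) := by
    intro p
    apply Per.prod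
    intro i _ n
    simp only
    rw [ind_per (hS.col (h i)) p n]
  have h1 : ∀ n, ∏ i, |τ n (h i) * SV (Sn S n) Vs c (h i)| ≤ ∏ p ∈ P, G p n := by
    intro n
    rw [hG]
    simp only
    rw [prod_comm]
    apply prod_le_prod (fun _ _ => abs_nonneg _)
    intro i _
    rw [abs_mul]
    have h2 := LH.SV_abs (P := P) (R := Sn S n) Vs c hc hV (h i)
    calc |τ n (h i)| * |SV (Sn S n) Vs c (h i)| ≤ 1 * |SV (Sn S n) Vs c (h i)| :=
          mul_le_mul_of_nonneg_right (hτ _ _) (abs_nonneg _)
      _ ≤ _ := by rw [one_mul]; exact h2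
  refine (avg_mono h1).trans ?_
  have h2 : Per (∏ p ∈ P, p) (fun n => ∏ p ∈ P, G p n) :=
    Per.prod _ fun p hp => (hGper p).dvd (dvd_prod_of_mem _ hp)
  rw [avg_dvd h2 (dvd_mul_left _ _) (Nat.mul_pos hQt hQ1)]
  have h3 := avg_prod 1 one_pos (F := fun _ => 1) (per_const 1 1) G P (fun p hp => ⟨hP p hp, Nat.coprime_one_left p⟩)
    (fun p _ => hGper p)
  simp only [one_mul] at h3
  rw [h3, avg_const one_pos, one_mul]
  apply prod_le_prod
  · intro p _
    apply avg_nonneg
    intro n
    apply prod_nonneg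
    intro i _
    have := ind_nonneg (R := Sx S (h i)) p n
    linarith
  · intro p hp
    have hp0 : (0 : ℝ) < p := by exact_mod_cast (hP p hp).pos
    -- pointwise
    have h4 : ∀ n, G p n ≤ 1 + 2 ^ m * ∑ i, ind (Sx S (h i)) p n := by
      intro n
      by_cases h5 : ∀ i, ind (Sx S (h i)) p n = 0
      · rw [hG]
        simp only [h5]
        simp
      · push Not at h5
        obtain ⟨i0, hi0⟩ := h5
        have h6 : ind (Sx S (h i0)) p n = 1 := by
          unfold ind at hi0 ⊢
          split_ifs at hi0 ⊢ with h7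
          · rfl
          · exact absurd rfl hi0
        have h7 : (1 : ℝ) ≤ ∑ i, ind (Sx S (h i)) p n := by
          rw [← h6]
          exact single_le_sum (f := fun i => ind (Sx S (h i)) p n) (fun i _ => ind_nonneg p _) (mem_univ i0)
        have h8 : G p n ≤ 2 ^ m := by
          calc G p n ≤ ∏ _i : Fin m, (2 : ℝ) := by
                apply prod_le_prod
                · intro i _
                  have := ind_nonneg (R := Sx S (h i)) p n
                  linarith
                · intro i _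
                  have := ind_le_one (R := Sx S (h i)) p n
                  linarith
            _ = 2 ^ m := by rw [prod_const, card_univ, Fintype.card_fin]
        have h9 : (2 : ℝ) ^ m * 1 ≤ 2 ^ m * ∑ i, ind (Sx S (h i)) p n := mul_le_mul_of_nonneg_left h7 (by positivity)
        linarith
    refine (avg_mono h4).trans ?_
    have e1 : avg p (fun n => 1 + 2 ^ m * ∑ i, ind (Sx S (h i)) p n) =
        avg p (fun _ => 1) + avg p (fun n => 2 ^ m * ∑ i, ind (Sx S (h i)) p n) := by
      unfold avg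
      rw [sum_add_distrib, add_div]
    rw [e1, avg_const (hP p hp).pos, avg_const_mul, avg_sum]
    have e2 : ∑ i : Fin m, avg p (fun n => ind (Sx S (h i)) p n) ≤ m * ((κ : ℝ) / p) := by
      calc ∑ i : Fin m, avg p (fun n => ind (Sx S (h i)) p n) ≤ ∑ _i : Fin m, (κ : ℝ) / p := by
            apply sum_le_sum
            intro i _
            have := avg_ind (R := Sx S (h i)) p
            have h6 := gam_le (hS.col (h i)) p (hP p hp)
            rw [← this] at h6
            exact h6
        _ = _ := by rw [sum_const, card_univ, Fintype.card_fin, nsmul_eq_mul]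
    have e3 := mul_le_mul_of_nonneg_left e2 (by positivity : (0 : ℝ) ≤ 2 ^ m)
    linarith

end Pool.Agent.H36.TV
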