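import Mathlib
import Pool.Agent.H36.TV.Def

/-!
The number of values of the first variable with a large deviation.
-/

set_option autoImplicit false

open Finset

namespace Pool.Agent.H36.TV

open Pool.Agent.H373R2.T7 Pool.Agent.H36.LH
open Pool.Agent.Helper112.LP Pool.Agent.Helper112.LP.Kba Pool.Agent.Helper112.LP.Kbh
open Pool.Agent.H483R2.BHKD Pool.Agent.H20R2.FL Pool.Agent.H36.RW Pool.Agent.H36.BF
open Pool.Agent.H36.KT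

variable {S : ℕ → ℕ → ℕ → Prop} {μ : ℕ → ℕ} {κ : ℕ}

/-- the fluctuation -/
noncomputable def Fl (R : ℕ → ℕ → Prop) (g : ℕ → ℝ) (Pt : Finset ℕ) (T : ℕ) (Vs1 : Finset (Finset ℕ)) (c1 : Finset ℕ → ℝ)
    (Vs2 : Finset (Finset ℕ)) (c2 : Finset ℕ → ℝ) : ℝ :=
  ∑ x ∈ Icc 1 T, (tau R Pt x * SV R Vs1 c1 x) * (SV R Vs2 c2 x - MC g Vs2 c2)

set_option maxHeartbeats 1000000 in
/-- one pair of sieve functions -/
theorem fl_bound (hS : TwoB S μ κ) (k T w N X : ℕ) (Pt P1 P2 : Finset ℕ) (L1 L2 : ℕ) (Vs1 Vs2 : Finset (Finset ℕ))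
    (hSz : Sz κ Pt P1 P2 w L1 L2 Vs1 Vs2) (c1 c2 : Finset ℕ → ℝ) (hc1 : ∀ V, |c1 V| ≤ 1) (hc2 : ∀ V, |c2 V| ≤ 1)
    (hM : |MC (fun p => (μ p : ℝ) / p) Vs2 c2| ≤ 2) (hw : 0 < w) (hwκ : 3 * κ ≤ w) (hT : w ≤ T) (t : ℝ) (ht : 0 ≤ t) :
    (((Ioc N (N + X)).filter (fun n => t < |Fl (Sn S n) (fun p => (μ p : ℝ) / p) Pt T Vs1 c1 Vs2 c2|)).card : ℝ) *
        t ^ (2 * k) ≤
      X * ((∏ p ∈ P2, (1 + (κ : ℝ) / p)) ^ (2 * k) * (∏ p ∈ P1, (1 + 2 ^ (2 * k) * (2 * k : ℕ) * ((κ : ℝ) / p))) *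
        (T ^ (2 * k) * (3 * (κ : ℝ) / w) ^ k * ∏ p ∈ P2, (1 + 4 ^ (2 * k) * (2 * (κ : ℝ) / p)))) +
      2 * ((((∏ p ∈ Pt, p) * L1 * L2 : ℕ) : ℝ)) ^ (2 * k) * (T * (L1 * (L2 + 2))) ^ (2 * k) := by
  classical
  set g : ℕ → ℝ := fun p => (μ p : ℝ) / p with hg
  set Qt := ∏ p ∈ Pt, p with hQt
  have hQt0 : 0 < Qt := prod_pos fun p hp => (hSz.pt p hp).pos
  have hQ10 : 0 < ∏ p ∈ P1, p := prod_pos fun p hp => (hSz.p1 p hp).pos
  have hQ20 : 0 < ∏ p ∈ P2, p := prod_pos fun p hp => (hSz.p2 p hp).1.pos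
  set Q0 := Qt * ∏ p ∈ P1, p with hQ0
  have hQ00 : 0 < Q0 := Nat.mul_pos hQt0 hQ10
  set Q := Q0 * ∏ p ∈ P2, p with hQ
  have hQpos : 0 < Q := Nat.mul_pos hQ00 hQ20
  set F0 : ℕ → ℕ → ℝ := fun n x => tau (Sn S n) Pt x * SV (Sn S n) Vs1 c1 x with hF0
  have hF0per : ∀ x, Per Q0 (fun n => F0 n x) := by
    intro x
    have hSV1per : Per (∏ p ∈ P1, p) (SV (Sx S x) Vs1 c1) := by
      unfold SV
      apply Per.sum
      intro V hV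
      apply (per_const _ _).mul
      apply Per.prod
      intro p hp
      exact (ind_per (hS.col x) p).dvd (dvd_prod_of_mem _ (hSz.s1 V hV hp))
    exact ((tau_per (hS.col x) Pt).dvd (dvd_mul_right _ _)).mul (hSV1per.dvd (dvd_mul_left _ _))
  have hco : ∀ p ∈ P2, Nat.Coprime Q0 p := by
    intro p hp
    apply Nat.Coprime.mul_left
    · exact coprime_prods (P' := P1) hSz.pt (hSz.p2 p hp).1 fun h => disjoint_left.1 hSz.d02 h hp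
    · exact coprime_prods (P' := P1) hSz.p1 (hSz.p2 p hp).1 fun h => disjoint_left.1 hSz.d12 h hp
  have hτ1 : ∀ n x, |tau (Sn S n) Pt x| ≤ 1 := fun n x => by
    rw [abs_of_nonneg (tau_nonneg Pt x)]
    exact tau_le_one Pt x
  have hw0 : (0 : ℝ) < w := by exact_mod_cast hw
  set v : ℝ := Real.sqrt (3 * (κ : ℝ) / w) with hv
  have hv2 : v ^ 2 = 3 * (κ : ℝ) / w := Real.sq_sqrt (by positivity)
  have hv0 : 0 ≤ v := Real.sqrt_nonneg _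
  have hv1 : v ≤ 1 := by
    rw [hv]
    refine Real.sqrt_le_iff.2 ⟨zero_le_one, ?_⟩
    rw [one_pow, div_le_one hw0]
    exact_mod_cast hwκ
  have hTpos : 0 < T := by omega
  have hce : ∀ p ∈ P2, Ce (fun p n x => ind (Sn S n) p x - g p) κ v T p := by
    intro p hp
    have h1 : w ≤ p := (hSz.p2 p hp).2
    apply ce_of hS p T (hSz.p2 p hp).1 hTpos (by omega) v hv0 hv1
    rw [hv2]
    have h1r : (w : ℝ) ≤ p := by exact_mod_cast h1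
    have h2 : (w : ℝ) ≤ T := by exact_mod_cast hT
    have h3 : 2 / (p : ℝ) ≤ 2 / w := div_le_div_of_nonneg_left (by norm_num) hw0 h1r
    have h4 : 1 / (T : ℝ) ≤ 1 / w := div_le_div_of_nonneg_left (by norm_num) hw0 h2
    calc (κ : ℝ) * (2 / p + 1 / T) ≤ κ * (2 / w + 1 / w) := mul_le_mul_of_nonneg_left (add_le_add h3 h4) (Nat.cast_nonneg _)
      _ = 3 * κ / w := by ring
  have key := TV.mom (2 * k) T P2 (fun p hp => (hSz.p2 p hp).1) hTpos (fun p n x => ind (Sn S n) p x) g (κ : ℝ)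
    (Nat.cast_nonneg _) v hv0 hv1 hce (fun p => by rw [hg]; positivity) (fun p hp => by
      rw [hg]
      simp only
      apply div_le_div_of_nonneg_right _ (Nat.cast_nonneg _)
      exact_mod_cast hS.mule p) Q0 hQ00 hco F0 hF0per
    (∏ p ∈ P1, (1 + 2 ^ (2 * k) * (2 * k : ℕ) * ((κ : ℝ) / p))) (prod_nonneg fun p _ => by positivity)
    (fun h => TV.SV_corr hS Vs1 c1 hc1 hSz.s1 hSz.p1 Qt hQt0 (fun n x => tau (Sn S n) Pt x) hτ1 (2 * k) h) Vs2 c2 hSz.s2 hc2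
  rw [pow_mul v 2 k, hv2] at key
  -- small periods
  have hSm : Sm Q (Qt * L1 * L2) (T * (L1 * (L2 + 2))) (fun n => Fl (Sn S n) g Pt T Vs1 c1 Vs2 c2) := by
    have hD1 : 1 ≤ Qt * L1 * L2 := Nat.mul_pos (Nat.mul_pos hQt0 hSz.L1p) hSz.L2p
    have s0 : ∀ x, Sm Q Qt 1 (tau (Sx S x) Pt) := fun x => sm_per hQt0 (by
      rw [hQ, hQ0, mul_assoc]
      exact dvd_mul_right _ _) le_rfl (tau_per (hS.col x) Pt) (fun n => by
        rw [← tau_sym]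
        exact hτ1 n x)
    have s1 : ∀ x, Sm Q L1 Vs1.card (SV (Sx S x) Vs1 c1) := fun x => sm_SV (hS.col x) Vs1 c1 hc1 (by
      intro V hV
      refine ⟨?_, prod_pos fun p hp => (hSz.p1 p (hSz.s1 V hV hp)).pos, hSz.l1 V hV⟩
      have : ∏ p ∈ V, p ∣ ∏ p ∈ P1, p := prod_dvd_prod_of_subset _ _ _ (hSz.s1 V hV)
      exact (this.mul_left Qt).mul_right _)
    have s2 : ∀ x, Sm Q L2 Vs2.card (SV (Sx S x) Vs2 c2) := fun x => sm_SV (hS.col x) Vs2 c2 hc2 (by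
      intro V hV
      refine ⟨?_, prod_pos fun p hp => (hSz.p2 p (hSz.s2 V hV hp)).1.pos, hSz.l2 V hV⟩
      have : ∏ p ∈ V, p ∣ ∏ p ∈ P2, p := prod_dvd_prod_of_subset _ _ _ (hSz.s2 V hV)
      exact this.mul_left Q0)
    have s3 : ∀ x, Sm Q L2 (Vs2.card + 2) (fun n => SV (Sx S x) Vs2 c2 n - MC g Vs2 c2) := by
      intro x
      have h1 := (s2 x).add (sm_const (Q := Q) (D := L2) (-(MC g Vs2 c2)) hSz.L2p)
      rw [abs_neg] at h1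
      refine Sm.mono ?_ le_rfl (add_le_add le_rfl hM)
      simpa only [sub_eq_add_neg] using h1
    have s5 : ∀ x ∈ Icc 1 T, Sm Q (Qt * L1 * L2) (L1 * (L2 + 2))
        (fun n => (tau (Sn S n) Pt x * SV (Sn S n) Vs1 c1 x) * (SV (Sn S n) Vs2 c2 x - MC g Vs2 c2)) := by
      intro x _
      have s4 := ((s0 x).mul (s1 x)).mul (s3 x)
      refine Sm.mono (f := fun n => (tau (Sx S x) Pt n * SV (Sx S x) Vs1 c1 n) * (SV (Sx S x) Vs2 c2 n - MC g Vs2 c2))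
        s4 le_rfl ?_
      rw [one_mul]
      have h1 : (Vs1.card : ℝ) ≤ L1 := by exact_mod_cast hSz.n1
      have h2 : (Vs2.card : ℝ) ≤ L2 := by exact_mod_cast hSz.n2
      apply mul_le_mul h1 (by linarith) (by positivity) (by positivity)
    have s6 := Sm.sum (Icc 1 T) _ s5
    rw [Nat.card_Icc] at s6
    unfold Fl
    have e1 : ((T + 1 - 1 : ℕ) : ℝ) = T := by simp
    rw [e1] at s6
    exact s6
  have hpow := (hSm.pow hQpos (2 * k)).avg hQpos N X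
  have h1 := (abs_le.1 hpow).2
  have h2 : ∑ n ∈ Ioc N (N + X), Fl (Sn S n) g Pt T Vs1 c1 Vs2 c2 ^ (2 * k) ≤
      X * avg Q (fun n => Fl (Sn S n) g Pt T Vs1 c1 Vs2 c2 ^ (2 * k)) +
        2 * (((Qt * L1 * L2) ^ (2 * k) : ℕ) : ℝ) * (T * (L1 * (L2 + 2))) ^ (2 * k) := by linarith
  set Bd := (Ioc N (N + X)).filter (fun n => t < |Fl (Sn S n) g Pt T Vs1 c1 Vs2 c2|) with hBd
  have h3 : (Bd.card : ℝ) * t ^ (2 * k) ≤ ∑ n ∈ Ioc N (N + X), Fl (Sn S n) g Pt T Vs1 c1 Vs2 c2 ^ (2 * k) := by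
    calc (Bd.card : ℝ) * t ^ (2 * k) = ∑ n ∈ Bd, t ^ (2 * k) := by rw [sum_const, nsmul_eq_mul]
      _ ≤ ∑ n ∈ Bd, Fl (Sn S n) g Pt T Vs1 c1 Vs2 c2 ^ (2 * k) := by
          apply sum_le_sum
          intro n hn
          rw [hBd, mem_filter] at hn
          have e : Fl (Sn S n) g Pt T Vs1 c1 Vs2 c2 ^ (2 * k) = |Fl (Sn S n) g Pt T Vs1 c1 Vs2 c2| ^ (2 * k) := by
            rw [pow_mul, pow_mul, sq_abs]
          rw [e]
          exact pow_le_pow_left₀ ht hn.2.le _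
      _ ≤ _ := by
          apply sum_le_sum_of_subset_of_nonneg (filter_subset _ _)
          intro n _ _
          rw [pow_mul]
          positivity
  refine h3.trans (h2.trans ?_)
  have h4 : avg Q (fun n => Fl (Sn S n) g Pt T Vs1 c1 Vs2 c2 ^ (2 * k)) ≤
      (∏ p ∈ P2, (1 + (κ : ℝ) / p)) ^ (2 * k) * (∏ p ∈ P1, (1 + 2 ^ (2 * k) * (2 * k : ℕ) * ((κ : ℝ) / p))) *
        (T ^ (2 * k) * (3 * (κ : ℝ) / w) ^ k * ∏ p ∈ P2, (1 + 4 ^ (2 * k) * (2 * (κ : ℝ) / p))) := key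
  have h5 := mul_le_mul_of_nonneg_left h4 (Nat.cast_nonneg (α := ℝ) X)
  push_cast at h5 ⊢
  linarith

/-- the sum with both sieve functions -/
noncomputable def Pr2 (R : ℕ → ℕ → Prop) (Pt : Finset ℕ) (T : ℕ) (Vs1 : Finset (Finset ℕ)) (c1 : Finset ℕ → ℝ)
    (Vs2 : Finset (Finset ℕ)) (c2 : Finset ℕ → ℝ) : ℝ :=
  ∑ x ∈ Icc 1 T, tau R Pt x * (SV R Vs1 c1 x * SV R Vs2 c2 x)

lemma Pr2_bound {R : ℕ → ℕ → Prop} (hR : PerB R κ) (g : ℕ → ℝ) (T w : ℕ) (Pt P1 P2 : Finset ℕ) (L1 L2 : ℕ)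
    (Vs1 Vs2 : Finset (Finset ℕ))
    (hS : Sz κ Pt P1 P2 w L1 L2 Vs1 Vs2) (c1 c2 : Finset ℕ → ℝ) (hc1 : ∀ V, |c1 V| ≤ 1)
    (hM : |MC g Vs2 c2| ≤ 2) (t : ℝ) (h : |Fl R g Pt T Vs1 c1 Vs2 c2| ≤ t) :
    |Pr2 R Pt T Vs1 c1 Vs2 c2 - T * (Wg (gam R) Pt * (MV R Vs1 c1 * MC g Vs2 c2))| ≤
      4 * (((∏ p ∈ Pt, p) * L1 : ℕ) : ℝ) * L1 + t := by
  have h1 := main_bound hR T w Pt P1 P2 L1 L2 Vs1 Vs2 hS c1 hc1 0
  simp only [zero_add] at h1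
  set A := ∑ x ∈ Icc 1 T, tau R Pt x * SV R Vs1 c1 x with hA
  set e := 2 * (((∏ p ∈ Pt, p) * L1 : ℕ) : ℝ) * L1 with he
  have h2 : Pr2 R Pt T Vs1 c1 Vs2 c2 = MC g Vs2 c2 * A + Fl R g Pt T Vs1 c1 Vs2 c2 := by
    unfold Pr2 Fl
    rw [hA, mul_sum, ← sum_add_distrib]
    apply sum_congr rfl
    intro x _
    ring
  have h3 : Pr2 R Pt T Vs1 c1 Vs2 c2 - T * (Wg (gam R) Pt * (MV R Vs1 c1 * MC g Vs2 c2)) =
      MC g Vs2 c2 * (A - T * (Wg (gam R) Pt * MV R Vs1 c1)) + Fl R g Pt T Vs1 c1 Vs2 c2 := by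
    rw [h2]
    ring
  rw [h3]
  refine (abs_add_le _ _).trans ?_
  rw [abs_mul]
  have h4 : |MC g Vs2 c2| * |A - T * (Wg (gam R) Pt * MV R Vs1 c1)| ≤ 2 * e :=
    mul_le_mul hM h1 (abs_nonneg _) (by norm_num)
  have h5 : 2 * e = 4 * (((∏ p ∈ Pt, p) * L1 : ℕ) : ℝ) * L1 := by rw [he]; ring
  linarith

lemma MC_wg (g : ℕ → ℝ) (b J : ℕ) (P : Finset ℕ) (C : Fin J → Finset ℕ → ℝ) :
    MC g (VV b J P) (cf C) = wg g (FF b J P) C := by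
  unfold MC
  rw [sum_VV]
  unfold wg
  rw [prod_univ_sum]
  apply sum_congr rfl
  intro T hT
  unfold cf
  rw [grp_bhU b J P hT, prod_mul_distrib, bh_pT_eq T (UU_G b J P hT) g]

end Pool.Agent.H36.TV
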