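import Mathlib
import Pool.Agent.H36.TV.FinA
import Pool.Agent.H36.LH.EvN

/-!
Power saving for the number of exceptional values of the first variable.
-/

set_option autoImplicit false

open Finset Filter

namespace Pool.Agent.H36.TV

open Pool.Agent.H36.RW Pool.Agent.H373R2.T7 Pool.Agent.H36.BF Pool.Agent.H36.BE
open Pool.Agent.H36.KT Pool.Agent.H36.LH

lemma bernoulli (D : Finset ℕ) (x : ℕ → ℝ) (h : ∀ p ∈ D, 0 ≤ x p ∧ x p ≤ 1) : 1 - ∑ p ∈ D, x p ≤ ∏ p ∈ D, (1 - x p) := by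
  classical
  induction D using Finset.induction_on with
  | empty => simp
  | insert p D hp ih =>
    rw [sum_insert hp, prod_insert hp]
    have h1 := ih fun q hq => h q (mem_insert_of_mem hq)
    obtain ⟨h2, h3⟩ := h p (mem_insert_self _ _)
    have h4 : ∏ q ∈ D, (1 - x q) ≤ 1 := by
      apply prod_le_one
      · intro q hq
        have := (h q (mem_insert_of_mem hq)).2
        linarith
      · intro q hq
        have := (h q (mem_insert_of_mem hq)).1
        linarith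
    have h5 : x p * ∏ q ∈ D, (1 - x q) ≤ x p * 1 := mul_le_mul_of_nonneg_left h4 h2
    linarith

open Classical in
/-- comparison of two densities -/
lemma Wg_close (g g' : ℕ → ℝ) (κ : ℕ) (P : Finset ℕ) (w : ℕ) (δ : ℝ) (hw : 0 < w)
    (hP : ∀ p ∈ P, p.Prime ∧ w < p ∧ 2 * κ ≤ p)
    (hg : ∀ p ∈ P, 0 ≤ g p ∧ g p ≤ (κ : ℝ) / p) (hg' : ∀ p ∈ P, 0 ≤ g' p ∧ g' p ≤ (κ : ℝ) / p)
    (hδ : ((P.filter (fun p => g p ≠ g' p)).card : ℝ) * (κ / w) ≤ δ) (hδ1 : δ ≤ 1 / 2) :
    |Wg g P - Wg g' P| ≤ 2 * δ * Wg g' P := by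
  set D := P.filter (fun p => g p ≠ g' p) with hD
  have hw0 : (0 : ℝ) < w := by exact_mod_cast hw
  have hκ0 : (0 : ℝ) ≤ κ := Nat.cast_nonneg _
  have hhalf : ∀ p ∈ P, (κ : ℝ) / p ≤ 1 / 2 := by
    intro p hp
    have h1 : ((2 * κ : ℕ) : ℝ) ≤ p := by exact_mod_cast (hP p hp).2.2
    push_cast at h1
    rw [div_le_iff₀ (by exact_mod_cast (hP p hp).1.pos)]
    linarith
  have hlow : ∀ f : ℕ → ℝ, (∀ p ∈ P, 0 ≤ f p ∧ f p ≤ (κ : ℝ) / p) → 1 - δ ≤ ∏ p ∈ D, (1 - f p) ∧ ∏ p ∈ D, (1 - f p) ≤ 1 := by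
    intro f hf
    constructor
    · refine le_trans ?_ (bernoulli D f fun p hp => ?_)
      · have h1 : ∑ p ∈ D, f p ≤ ∑ _p ∈ D, (κ : ℝ) / w := by
          apply sum_le_sum
          intro p hp
          have hpP := (mem_filter.1 hp).1
          refine (hf p hpP).2.trans ?_
          apply div_le_div_of_nonneg_left hκ0 hw0
          exact_mod_cast (hP p hpP).2.1.le
        rw [sum_const, nsmul_eq_mul] at h1
        linarith
      · have hpP := (mem_filter.1 hp).1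
        exact ⟨(hf p hpP).1, (hf p hpP).2.trans ((hhalf p hpP).trans (by norm_num))⟩
    · apply prod_le_one
      · intro p hp
        have hpP := (mem_filter.1 hp).1
        have := (hf p hpP).2
        have := hhalf p hpP
        linarith
      · intro p hp
        have := (hf p (mem_filter.1 hp).1).1
        linarith
  have hsplit : ∀ f : ℕ → ℝ, Wg f P = (∏ p ∈ D, (1 - f p)) * ∏ p ∈ P.filter (fun p => ¬ (g p ≠ g' p)), (1 - f p) := by
    intro f
    unfold Wg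
    rw [hD, prod_filter_mul_prod_filter_not]
  have hrest : ∏ p ∈ P.filter (fun p => ¬ (g p ≠ g' p)), (1 - g p) = ∏ p ∈ P.filter (fun p => ¬ (g p ≠ g' p)), (1 - g' p) := by
    apply prod_congr rfl
    intro p hp
    have := (mem_filter.1 hp).2
    push Not at this
    rw [this]
  rw [hsplit g, hsplit g', hrest]
  set Q := ∏ p ∈ P.filter (fun p => ¬ (g p ≠ g' p)), (1 - g' p) with hQ
  have hQ0 : 0 ≤ Q := by
    apply prod_nonneg
    intro p hp
    have hpP := (mem_filter.1 hp).1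
    have := (hg' p hpP).2
    have := hhalf p hpP
    linarith
  obtain ⟨a1, a2⟩ := hlow g hg
  obtain ⟨b1, b2⟩ := hlow g' hg'
  set x := ∏ p ∈ D, (1 - g p)
  set y := ∏ p ∈ D, (1 - g' p)
  have e1 : x * Q - y * Q = (x - y) * Q := by ring
  rw [e1, abs_mul, abs_of_nonneg hQ0]
  have h1 : |x - y| ≤ 2 * δ * y := by
    rw [abs_le]
    constructor <;> nlinarith
  calc |x - y| * Q ≤ (2 * δ * y) * Q := mul_le_mul_of_nonneg_right h1 hQ0
    _ = _ := by ring

/-- the regular values of the first variable -/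
def Okn (S : ℕ → ℕ → ℕ → Prop) (μ : ℕ → ℕ) (κ z : ℕ) (L : ℝ) (n : ℕ) : Prop :=
  (∀ p : ℕ, p.Prime → nuB (Sn S n) p < p) ∧
    (((pz z).filter (fun p => 2 * κ < p ∧ nuB (Sn S n) p ≠ μ p)).card : ℝ) ≤ L ^ 2

open Classical in
set_option maxHeartbeats 2000000 in
theorem tv_mid (κ : ℕ) (hκ : 1 ≤ κ) (ε : ℝ) (hε : 0 < ε) (b0 : ℕ) : ∃ b : ℕ, b0 ≤ b ∧ 1 ≤ b ∧ ∀ A : ℕ, ∃ B : ℕ,
    ∃ c0 : ℝ, 0 < c0 ∧ c0 ≤ 1 / 2 ∧ ∀ c : ℝ, 0 < c → c ≤ c0 → ∀ᶠ L : ℝ in atTop, ∀ X : ℕ, Real.exp L ≤ X →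
    ∀ T : ℕ, L ^ B ≤ T → (T : ℝ) ≤ Real.exp (40 * b * c * L) →
    ∀ (S : ℕ → ℕ → ℕ → Prop) (μ : ℕ → ℕ), TwoB S μ κ → ∀ N : ℕ,
    (((Ioc N (N + X)).filter (fun n => Okn S μ κ (zE c L) L n ∧ ε * (T * Wg (gam (Sn S n)) (pz (zE c L))) <
      |(SC (Sn S n) (pz (zE c L)) 0 T : ℝ) - T * Wg (gam (Sn S n)) (pz (zE c L))|)).card : ℝ) ≤ X / (T : ℝ) ^ A := by
  obtain ⟨C0, hC0, hfin⟩ := TV.fin_all κ hκ
  obtain ⟨b1, hb1⟩ := exists_pow_lt_of_lt_one (show 0 < ε / 72 by positivity) (show (1 / 4 : ℝ) < 1 by norm_num)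
  obtain ⟨cl, hcl, hVl⟩ := Vz_lower
  set b := max (max C0 b0) (max b1 2) with hb
  have hbC0 : C0 ≤ b := (le_max_left _ _).trans (le_max_left _ _)
  have hbb0 : b0 ≤ b := (le_max_right _ _).trans (le_max_left _ _)
  have hbb1 : b1 ≤ b := (le_max_left _ _).trans (le_max_right _ _)
  have hb2 : 2 ≤ b := (le_max_right _ _).trans (le_max_right _ _)
  have hη : 18 * (1 / 4 : ℝ) ^ b ≤ ε / 2 / 2 := by
    have : (1 / 4 : ℝ) ^ b ≤ (1 / 4) ^ b1 := pow_le_pow_of_le_one (by norm_num) (by norm_num) hbb1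
    linarith
  refine ⟨b, hbb0, by omega, fun A => ?_⟩
  set k := 80 * b * (A + 2) with hk
  set s := 2 * κ + 4 with hs
  set E := 2 * κ * (2 * k) + 2 * (2 ^ (2 * k) * (2 * k) * κ) + 2 * (4 ^ (2 * k) * (2 * κ)) with hE
  set B := E + 2 * k * s + 2 + (4 * κ + 6) + 320 * b with hB
  have hbr : (0 : ℝ) < b := by exact_mod_cast (by omega : 0 < b)
  have hκr : (1 : ℝ) ≤ κ := by exact_mod_cast hκ
  set c0 : ℝ := 1 / (400 * b * (k + A + 1)) with hc0
  have hc0pos : 0 < c0 := by positivity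
  have hc0half : c0 ≤ 1 / 2 := by
    rw [hc0]
    apply one_div_le_one_div_of_le (by norm_num)
    have h1 : (1 : ℝ) ≤ b := by exact_mod_cast (by omega : 1 ≤ b)
    have h2 : (0 : ℝ) ≤ (k : ℝ) + A := by positivity
    nlinarith
  refine ⟨B, c0, hc0pos, hc0half, fun c hc hcc0 => ?_⟩
  set p0' := 12 + 2 * κ with hp0
  set Qt : ℕ := Qy p0' with hQt
  have hQt1 : 1 ≤ Qt := Qy_pos p0'
  have hQtr : (1 : ℝ) ≤ Qt := by exact_mod_cast hQt1
  filter_upwards [ev_pow_exp 3 (c / 2) (by positivity) 0, ev_log_add 8 1 1 one_pos,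
    ev_pow_exp (4 * (3 * Qt) ^ (2 * k)) (1 / 2) (by norm_num) (2 * k * s + 1),
    eventually_ge_atTop (Real.exp 1), eventually_ge_atTop (1 / cl), eventually_ge_atTop ((p0' : ℝ) + 3 * κ + 2),
    eventually_ge_atTop (2 * (6 * (κ : ℝ)) ^ k), eventually_ge_atTop (4 / ε), eventually_ge_atTop (16 * (Qt : ℝ) / ε),
    eventually_ge_atTop ((2 * κ / cl) ^ (2 * κ)), eventually_ge_atTop (3 : ℝ),
    eventually_ge_atTop (8 * κ / ε), eventually_ge_atTop (4 * κ : ℝ), eventually_ge_atTop (4 / (ε / 2)),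
    eventually_ge_atTop (16 * (Qt : ℝ) / (ε / 2))] with L g1 g2 g3 g4 g5 g6 g7 g8 g9 g10 g11 g12 g13 g14 g15
  intro X hX T hTL hTU S μ hS N
  rw [pow_zero, mul_one] at g1
  rw [Real.rpow_one] at g2
  have hL1 : 1 ≤ L := by linarith
  have hL0 : 0 < L := by linarith
  set z := zE c L with hz
  have hzle : (z : ℝ) ≤ Real.exp (c * L) := zE_le c L
  have hlog1 : c * L / 2 ≤ Real.log z := log_floor_ge (c * L) (by
    have : c / 2 * L = c * L / 2 := by ring
    rw [this] at g1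
    exact g1)
  have hlog0 : 0 < Real.log z := lt_of_lt_of_le (by positivity) hlog1
  have hz2 : 2 ≤ z := by
    by_contra h1
    push Not at h1
    have h2 : z = 0 ∨ z = 1 := by omega
    rcases h2 with h2 | h2 <;> rw [h2] at hlog0 <;> simp at hlog0
  have hz0 : (0 : ℝ) < z := by exact_mod_cast (by omega : 0 < z)
  have hc1 : c ≤ 1 := by linarith
  have hlogz : Real.log z ≤ L := by
    have h1 := Real.log_le_log hz0 hzle
    rw [Real.log_exp] at h1
    nlinarith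
  have hX0 : (0 : ℝ) < X := (Real.exp_pos L).trans_le hX
  have hLB : (1 : ℝ) ≤ L ^ B := one_le_pow₀ hL1
  have hT1r : (1 : ℝ) ≤ T := hLB.trans hTL
  have hT1 : 1 ≤ T := by exact_mod_cast hT1r
  have hT0 : (0 : ℝ) < T := by linarith
  obtain ⟨w, hw1, hw2⟩ := root_nat (80 * b) T (by omega)
  have hw1r : (w : ℝ) ^ (80 * b) ≤ T := by exact_mod_cast hw1
  have hw2r : (T : ℝ) < ((w : ℝ) + 1) ^ (80 * b) := by exact_mod_cast hw2
  have hpowT : ∀ j : ℕ, j ≤ B → L ^ j ≤ (T : ℝ) := fun j hj => (pow_le_pow_right₀ hL1 hj).trans hTL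
  have hL4w : L ^ 4 < (w : ℝ) + 1 := by
    have h1 : (L ^ 4) ^ (80 * b) < ((w : ℝ) + 1) ^ (80 * b) := by
      rw [← pow_mul]
      exact (hpowT (4 * (80 * b)) (by omega)).trans_lt hw2r
    exact lt_of_pow_lt_pow_left₀ _ (by positivity) h1
  have hLw : L < (w : ℝ) + 1 := by
    have h1 : L ^ 1 ≤ L ^ 4 := pow_le_pow_right₀ hL1 (by norm_num)
    rw [pow_one] at h1
    linarith
  have hL3w : L ^ 3 ≤ w := by
    have h1 : 3 * L ^ 3 ≤ L ^ 4 := by
      have : 0 < L ^ 3 := by positivity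
      nlinarith
    have h2 : (1 : ℝ) ≤ L ^ 3 := one_le_pow₀ hL1
    linarith
  have hwbig : p0' + 3 * κ < w := by
    have : ((p0' + 3 * κ + 2 : ℕ) : ℝ) < ((w + 1 : ℕ) : ℝ) := by
      push_cast
      linarith
    have h2 : p0' + 3 * κ + 2 < w + 1 := by exact_mod_cast this
    omega
  have hwz : w ≤ z := by
    have h1 : (w : ℝ) ^ (80 * b) ≤ (Real.exp (c * L / 2)) ^ (80 * b) := by
      rw [← Real.exp_nat_mul]
      refine (hw1r.trans hTU).trans (Real.exp_le_exp.2 ?_)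
      push_cast
      apply le_of_eq
      ring
    have h2 : (w : ℝ) ≤ Real.exp (c * L / 2) := (pow_le_pow_iff_left₀ (Nat.cast_nonneg _) (Real.exp_pos _).le (by omega)).1 h1
    have h3 : Real.exp (c * L / 2) ≤ z := by
      rw [← Real.exp_log hz0]
      exact Real.exp_le_exp.2 hlog1
    exact_mod_cast h2.trans h3
  have hwT : w ≤ T := (Nat.le_self_pow (by omega) w).trans hw1
  have hset : pz p0' ∪ Pyz p0' w ∪ Pyz w z = pz z := by
    rw [← pz_split p0' w (by omega), ← pz_split w z hwz]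
  have hd01 : Disjoint (pz p0') (Pyz p0' w) := pz_disj p0' w
  have hd02 : Disjoint (pz p0') (Pyz w z) := by
    rw [disjoint_left]
    intro p h1 h2
    have := (mem_pz.1 h1).1
    have := (mem_Pyz.1 h2).1
    omega
  have hd12 : Disjoint (Pyz p0' w) (Pyz w z) := by
    rw [disjoint_left]
    intro p h1 h2
    have := (mem_Pyz.1 h1).2.1
    have := (mem_Pyz.1 h2).1
    omega
  have key := hfin b (JJ w) (JJ z) k T w N X (pz p0') (Pyz p0' w) (Pyz w z) S μ ((T : ℝ) / L ^ s) hS hbC0 hb2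
    (fun p hp => (mem_pz.1 hp).2) (by
      intro p hp
      obtain ⟨h1, h2, h3⟩ := mem_Pyz.1 hp
      exact ⟨h3, by omega, h2.trans (JJ_lt w).le, by omega⟩) (by
      intro p hp
      obtain ⟨h1, h2, h3⟩ := mem_Pyz.1 hp
      exact ⟨h3, by omega, h2.trans (JJ_lt z).le, by omega, by omega⟩) hd01 hd02 hd12 (by omega) (by omega) hwT (by positivity)
  rw [hset] at key
  set L1 : ℕ := (2 ^ 2 ^ JJ w) ^ (10 * b) with hL1d
  set L2 : ℕ := (2 ^ 2 ^ JJ z) ^ (10 * b) with hL2d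
  have hL1w : (L1 : ℝ) ≤ (w : ℝ) ^ (20 * b) := by
    rw [hL1d]
    push_cast
    calc ((2 : ℝ) ^ 2 ^ JJ w) ^ (10 * b) ≤ ((w : ℝ) ^ 2) ^ (10 * b) := pow_le_pow_left₀ (by positivity) (pow_JJ w (by omega)) _
      _ = _ := by rw [← pow_mul]; congr 1; ring
  have hL2z : (L2 : ℝ) ≤ Real.exp (20 * b * c * L) := by
    rw [hL2d]
    push_cast
    apply pow_JJ' z (10 * b) hz2 (c * L) _ hzle
    push_cast
    apply le_of_eq
    ring
  have hL1T : (L1 : ℝ) ^ 4 ≤ T := by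
    calc (L1 : ℝ) ^ 4 ≤ ((w : ℝ) ^ (20 * b)) ^ 4 := pow_le_pow_left₀ (Nat.cast_nonneg _) hL1w _
      _ = (w : ℝ) ^ (80 * b) := by rw [← pow_mul]; congr 1; ring
      _ ≤ T := hw1r
  have hJw : (JJ w : ℝ) ≤ 4 * Real.log L := J_bound w L (by omega) g4 (by
    have : Real.log w ≤ Real.log z := Real.log_le_log (by exact_mod_cast (by omega : 0 < w)) (by exact_mod_cast hwz)
    linarith)
  have hJz : (JJ z : ℝ) ≤ 4 * Real.log L := J_bound z L hz2 g4 hlogz
  have hJ : (1 : ℝ) + JJ w + JJ z ≤ L := by linarith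
  have hVz : cl / L ≤ Vz z := by
    refine le_trans ?_ (hVl z hz2)
    exact div_le_div_of_nonneg_left hcl.le hlog0 hlogz
  have hVz0 : 0 < Vz z := Vz_pos z
  have hVzinv : 1 / Vz z ≤ L ^ 2 := by
    rw [div_le_iff₀ hVz0]
    have h1 : L ^ 2 * (cl / L) ≤ L ^ 2 * Vz z := mul_le_mul_of_nonneg_left hVz (by positivity)
    have h2 : 1 ≤ L * cl := by rwa [div_le_iff₀ hcl] at g5
    have h3 : L ^ 2 * (cl / L) = L * cl := by field_simp
    linarith
  set Bd := (Ioc N (N + X)).filter (fun n => Okn S μ κ z L n ∧ ε * (T * Wg (gam (Sn S n)) (pz z)) <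
      |(SC (Sn S n) (pz z) 0 T : ℝ) - T * Wg (gam (Sn S n)) (pz z)|) with hBd
  have hcd : (Bd.card : ℝ) * ((T : ℝ) / L ^ s) ^ (2 * k) ≤ (1 + JJ w + JJ z) *
      BM κ k T w X L1 L2 (pz p0') (Pyz p0' w) (Pyz w z) := by
    refine le_trans ?_ key
    apply mul_le_mul_of_nonneg_right _ (by positivity)
    apply Nat.cast_le.2
    apply card_le_card
    intro n hn
    rw [hBd, mem_filter] at hn
    rw [mem_filter]
    obtain ⟨hn1, ⟨hAd, hfew⟩, hn2⟩ := hn
    refine ⟨hn1, ?_⟩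
    have hR := hS.row n
    have hV := V_low κ z hκ (Sn S n) hR hAd cl L hcl hL0 hVz g10
    set V := Wg (gam (Sn S n)) (pz z) with hVdef
    have hV0 : 0 < V := lt_of_lt_of_le (by positivity) hV
    have hdev := dev_le (T : ℝ) V L Qt L1 (1 + JJ w + JJ z) (ε / 2) (18 * (1 / 4 : ℝ) ^ b) κ hT0 hV hL1 (by positivity) hη
      (by positivity) (Nat.cast_nonneg _) hL1T hJ (hpowT _ (by omega)) g15 (by nlinarith)
    set g : ℕ → ℝ := fun p => (μ p : ℝ) / p with hg
    have hPw : ∀ p ∈ Pyz w z, p.Prime ∧ w < p ∧ 2 * κ ≤ p := by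
      intro p hp
      obtain ⟨h1, h2, h3⟩ := mem_Pyz.1 hp
      exact ⟨h3, h1, by omega⟩
    have hclose := Wg_close g (gam (Sn S n)) κ (Pyz w z) w (κ / L) (by omega) hPw (by
      intro p hp
      rw [hg]
      simp only
      refine ⟨by positivity, ?_⟩
      apply div_le_div_of_nonneg_right _ (Nat.cast_nonneg _)
      exact_mod_cast hS.mule p) (fun p hp => ⟨gam_nonneg p, gam_le hR p (hPw p hp).1⟩) (by
      have h1 : (((Pyz w z).filter (fun p => g p ≠ gam (Sn S n) p)).card : ℝ) ≤ L ^ 2 := by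
        refine le_trans ?_ hfew
        apply Nat.cast_le.2
        apply card_le_card
        intro p hp
        rw [mem_filter] at hp ⊢
        obtain ⟨h2, h3⟩ := hp
        obtain ⟨h4, h5, h6⟩ := mem_Pyz.1 h2
        refine ⟨mem_pz.2 ⟨h5, h6⟩, by omega, ?_⟩
        intro h7
        apply h3
        rw [hg]
        unfold gam
        rw [h7]
      have hw00 : (0 : ℝ) < w := by exact_mod_cast (by omega : 0 < w)
      calc (((Pyz w z).filter (fun p => g p ≠ gam (Sn S n) p)).card : ℝ) * (κ / w) ≤ L ^ 2 * (κ / w) :=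
            mul_le_mul_of_nonneg_right h1 (by positivity)
        _ ≤ L ^ 2 * (κ / L ^ 3) := by
            apply mul_le_mul_of_nonneg_left _ (by positivity)
            exact div_le_div_of_nonneg_left (by positivity) (by positivity) hL3w
        _ = κ / L := by field_simp) (by
      rw [div_le_iff₀ hL0]
      linarith)
    have hEV : |EW (Sn S n) g (pz p0') (Pyz p0' w) (Pyz w z) - V| ≤ 2 * (κ / L) * V := by
      have e1 : V = Wg (gam (Sn S n)) (pz p0') * (Wg (gam (Sn S n)) (Pyz p0' w) * Wg (gam (Sn S n)) (Pyz w z)) := by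
        rw [hVdef, ← hset]
        unfold Wg
        rw [prod_union (by
          rw [disjoint_union_left]
          exact ⟨hd02, hd12⟩), prod_union hd01]
        ring
      have hWn : ∀ P : Finset ℕ, 0 ≤ Wg (gam (Sn S n)) P := by
        intro P
        unfold Wg
        apply prod_nonneg
        intro p _
        have := gam_le_one (R := Sn S n) p
        linarith
      have e2 : EW (Sn S n) g (pz p0') (Pyz p0' w) (Pyz w z) - V =
          (Wg (gam (Sn S n)) (pz p0') * Wg (gam (Sn S n)) (Pyz p0' w)) * (Wg g (Pyz w z) - Wg (gam (Sn S n)) (Pyz w z)) := by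
        rw [e1]
        unfold EW
        ring
      rw [e2, abs_mul, abs_of_nonneg (mul_nonneg (hWn _) (hWn _))]
      have h1 := mul_le_mul_of_nonneg_left hclose (mul_nonneg (hWn (pz p0')) (hWn (Pyz p0' w)))
      rw [e1]
      refine h1.trans (le_of_eq ?_)
      ring
    set EV := EW (Sn S n) g (pz p0') (Pyz p0' w) (Pyz w z) with hEVdef
    have hκL : 2 * ((κ : ℝ) / L) ≤ ε / 4 := by
      have h1 : 8 * (κ : ℝ) ≤ L * ε := by rwa [div_le_iff₀ hε] at g12
      rw [mul_div_assoc', div_le_iff₀ hL0]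
      linarith
    have hκL1 : 2 * ((κ : ℝ) / L) ≤ 1 := by
      rw [mul_div_assoc', div_le_iff₀ hL0]
      linarith
    have hEV2 : EV ≤ 2 * V := by
      have h1 := (abs_le.1 hEV).2
      have h2 : 2 * ((κ : ℝ) / L) * V ≤ 1 * V := mul_le_mul_of_nonneg_right hκL1 hV0.le
      linarith
    have hTEV : T * |EV - V| ≤ ε / 4 * (T * V) := by
      calc T * |EV - V| ≤ T * (2 * (κ / L) * V) := mul_le_mul_of_nonneg_left hEV hT0.le
        _ = 2 * (κ / L) * (T * V) := by ring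
        _ ≤ _ := mul_le_mul_of_nonneg_right hκL (by positivity)
    have h1 : |(SC (Sn S n) (pz z) 0 T : ℝ) - T * V| ≤ |(SC (Sn S n) (pz z) 0 T : ℝ) - T * EV| + T * |EV - V| := by
      have e1 : (SC (Sn S n) (pz z) 0 T : ℝ) - T * V = ((SC (Sn S n) (pz z) 0 T : ℝ) - T * EV) + T * (EV - V) := by ring
      rw [e1]
      refine (abs_add_le _ _).trans ?_
      rw [abs_mul, abs_of_pos hT0]
    have h2 : 9 * (1 / 4 : ℝ) ^ b * (T * EV) ≤ 18 * (1 / 4 : ℝ) ^ b * (T * V) := by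
      have h3 : T * EV ≤ T * (2 * V) := mul_le_mul_of_nonneg_left hEV2 hT0.le
      have h4 := mul_le_mul_of_nonneg_left h3 (by positivity : (0 : ℝ) ≤ 9 * (1 / 4 : ℝ) ^ b)
      linarith
    have h3 : (1 + JJ w + JJ z : ℝ) * (4 * (((∏ p ∈ pz p0', p) * L1 : ℕ) : ℝ) * (L1 : ℝ) + T / L ^ s) =
        (1 + JJ w + JJ z) * (4 * ((Qt : ℝ) * L1) * L1 + T / L ^ (2 * κ + 4)) := by
      have : ((∏ p ∈ pz p0', p) * L1 : ℕ) = Qt * L1 := rfl
      rw [this]
      push_cast
      ring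
    have hTV0 : 0 < T * V := by positivity
    have h5 : 9 * (1 / 4 : ℝ) ^ b * (T * EV) +
        (1 + JJ w + JJ z) * (4 * (((∏ p ∈ pz p0', p) * L1 : ℕ) : ℝ) * (L1 : ℝ) + T / L ^ s) ≤ ε / 2 * (T * V) := by
      rw [h3]
      linarith
    have hεTV : 0 < ε * (T * V) := mul_pos hε hTV0
    linarith
  have hBM := BM_le κ k T w z X p0' L1 L2 L hwz hVzinv hL0.le
  set Dm : ℝ := (Qt : ℝ) * L1 * L2 * (L1 * (L2 + 2)) with hDm
  have hDm0 : 0 ≤ Dm := by positivity
  have hBM' : BM κ k T w X L1 L2 (pz p0') (Pyz p0' w) (Pyz w z) ≤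
      X * (L ^ E * (T ^ (2 * k) * (3 * (κ : ℝ) / w) ^ k)) + 2 * (Dm * T) ^ (2 * k) := by
    refine hBM.trans (le_of_eq ?_)
    have e1 : L ^ E = L ^ (2 * κ * (2 * k)) * L ^ (2 * (2 ^ (2 * k) * (2 * k) * κ)) * L ^ (2 * (4 ^ (2 * k) * (2 * κ))) := by
      rw [hE, pow_add, pow_add]
    have e2 : (((Qy p0' * L1 * L2 : ℕ) : ℝ)) ^ (2 * k) * ((T : ℝ) * (L1 * (L2 + 2))) ^ (2 * k) = (Dm * T) ^ (2 * k) := by
      rw [← mul_pow]
      congr 1
      rw [hDm]
      push_cast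
      ring
    have e3 : 2 * (((Qy p0' * L1 * L2 : ℕ) : ℝ)) ^ (2 * k) * ((T : ℝ) * (L1 * (L2 + 2))) ^ (2 * k) =
        2 * (Dm * T) ^ (2 * k) := by
      rw [mul_assoc, e2]
    rw [e3, e1]
    ring
  have hw1' : (1 : ℝ) ≤ w := by exact_mod_cast (by omega : 1 ≤ w)
  have hL2one : (1 : ℝ) ≤ L2 := by
    have : 1 ≤ L2 := Nat.one_le_pow _ _ (by positivity)
    exact_mod_cast this
  have hDmle : Dm ^ (2 * k) ≤ (3 * Qt) ^ (2 * k) * (T ^ k * Real.exp (80 * b * c * k * L)) := by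
    have h1 : Dm ≤ 3 * Qt * ((L1 : ℝ) ^ 2 * (L2 : ℝ) ^ 2) := by
      rw [hDm]
      have h2 : (L2 : ℝ) + 2 ≤ 3 * L2 := by linarith
      calc (Qt : ℝ) * L1 * L2 * (L1 * (L2 + 2)) ≤ (Qt : ℝ) * L1 * L2 * (L1 * (3 * L2)) := by gcongr
        _ = _ := by ring
    calc Dm ^ (2 * k) ≤ (3 * Qt * ((L1 : ℝ) ^ 2 * (L2 : ℝ) ^ 2)) ^ (2 * k) := pow_le_pow_left₀ hDm0 h1 _
      _ = (3 * Qt) ^ (2 * k) * (((L1 : ℝ) ^ 4) ^ k * ((L2 : ℝ) ^ 4) ^ k) := by
          rw [mul_pow (3 * (Qt : ℝ)), mul_pow ((L1 : ℝ) ^ 2), ← pow_mul, ← pow_mul, ← pow_mul, ← pow_mul]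
          have e3 : 2 * (2 * k) = 4 * k := by ring
          rw [e3]
      _ ≤ (3 * Qt) ^ (2 * k) * (T ^ k * Real.exp (80 * b * c * k * L)) := by
          apply mul_le_mul_of_nonneg_left _ (by positivity)
          apply mul_le_mul (pow_le_pow_left₀ (by positivity) hL1T k) _ (by positivity) (by positivity)
          calc ((L2 : ℝ) ^ 4) ^ k ≤ ((Real.exp (20 * b * c * L)) ^ 4) ^ k := by
                apply pow_le_pow_left₀ (by positivity)
                exact pow_le_pow_left₀ (by positivity) hL2z 4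
            _ = Real.exp (80 * b * c * k * L) := by
                rw [← pow_mul, ← Real.exp_nat_mul]
                congr 1
                push_cast
                ring
  have hX3 : 4 * L * L ^ (2 * k * s) * Dm ^ (2 * k) * (T : ℝ) ^ A ≤ X := by
    have h1 : (T : ℝ) ^ (k + A) ≤ Real.exp (40 * b * c * (k + A) * L) := by
      calc (T : ℝ) ^ (k + A) ≤ (Real.exp (40 * b * c * L)) ^ (k + A) := pow_le_pow_left₀ hT0.le hTU _
        _ = _ := by
            rw [← Real.exp_nat_mul]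
            congr 1
            push_cast
            ring
    have h2 : 120 * b * c * (k + A) * L ≤ L / 2 := by
      have h3 : c * (400 * b * (k + A + 1)) ≤ 1 := by
        rw [hc0, le_div_iff₀ (by positivity)] at hcc0
        exact hcc0
      have h4 : 120 * b * c * ((k : ℝ) + A) ≤ 1 / 2 := by
        have h5 : 0 ≤ b * c * ((k : ℝ) + A) := by positivity
        have h6 : 0 ≤ b * c := by positivity
        nlinarith
      calc 120 * b * c * ((k : ℝ) + A) * L ≤ 1 / 2 * L := mul_le_mul_of_nonneg_right h4 hL0.le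
        _ = L / 2 := by ring
    calc 4 * L * L ^ (2 * k * s) * Dm ^ (2 * k) * (T : ℝ) ^ A ≤
        4 * L * L ^ (2 * k * s) * ((3 * Qt) ^ (2 * k) * (T ^ k * Real.exp (80 * b * c * k * L))) * (T : ℝ) ^ A := by
          gcongr
      _ = (4 * (3 * Qt) ^ (2 * k) * L ^ (2 * k * s + 1)) * ((T : ℝ) ^ (k + A) * Real.exp (80 * b * c * k * L)) := by
          rw [pow_add, pow_add]
          ring
      _ ≤ Real.exp (1 / 2 * L) * (Real.exp (40 * b * c * (k + A) * L) * Real.exp (80 * b * c * k * L)) := by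
          apply mul_le_mul g3 _ (by positivity) (Real.exp_pos _).le
          exact mul_le_mul_of_nonneg_right h1 (Real.exp_pos _).le
      _ = Real.exp (1 / 2 * L + (40 * b * c * (k + A) * L + 80 * b * c * k * L)) := by
          rw [Real.exp_add, Real.exp_add]
      _ ≤ Real.exp L := by
          apply Real.exp_le_exp.2
          have h3 : 80 * b * c * k * L ≤ 80 * b * c * (k + A) * L := by
            have : (k : ℝ) ≤ k + A := by
              have : (0 : ℝ) ≤ A := Nat.cast_nonneg _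
              linarith
            gcongr
          have h4 : 120 * b * c * (k + A) * L = 40 * b * c * (k + A) * L + 80 * b * c * (k + A) * L := by ring
          linarith
      _ ≤ X := hX
  exact cnt_le (T : ℝ) L (Bd.card : ℝ) (1 + JJ w + JJ z) _ X κ w Dm k s A E b (80 * b) hT1r hL1 hX0.le hJ (by positivity) hw1'
    (Nat.cast_nonneg _) hw2r.le hk hBM' hcd g7 ((hpowT _ (by omega)).trans (by nlinarith)) hX3

end Pool.Agent.H36.TV
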