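import Mathlib
import Pool.Agent.H36.TV.EvN
import Pool.Agent.H36.LH.AllL

/-!
The law for all long windows of the second variable at the same time, for almost all values of the first.
-/

set_option autoImplicit false

open Finset Filter

namespace Pool.Agent.H36.TV

open Pool.Agent.H36.RW Pool.Agent.H373R2.T7 Pool.Agent.H36.BF Pool.Agent.H36.BE
open Pool.Agent.H36.KT Pool.Agent.H36.LH

open Classical in
set_option maxHeartbeats 2000000 in
/-- all long windows -/
theorem tv_all (κ : ℕ) (hκ : 1 ≤ κ) (ε : ℝ) (hε : 0 < ε) (A : ℕ) : ∃ B : ℕ, 1 ≤ B ∧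
    ∃ c0 : ℝ, 0 < c0 ∧ c0 ≤ 1 / 2 ∧ ∀ c : ℝ, 0 < c → c ≤ c0 → ∀ᶠ L : ℝ in atTop, ∀ X : ℕ, Real.exp L ≤ X →
    ∀ (S : ℕ → ℕ → ℕ → Prop) (μ : ℕ → ℕ), TwoB S μ κ → ∀ N : ℕ, ∀ lam : ℝ, L ^ B ≤ lam →
    (((Ioc N (N + X)).filter (fun n => Okn S μ κ (zE c L) L n ∧ ∃ T : ℕ, lam ≤ T ∧
      ε * (T * Wg (gam (Sn S n)) (pz (zE c L))) <
      |(SC (Sn S n) (pz (zE c L)) 0 T : ℝ) - T * Wg (gam (Sn S n)) (pz (zE c L))|)).card : ℝ) ≤ X / lam ^ A := by
  obtain ⟨K, x0, hK, hsys⟩ := sys_fund κ hκ (ε / 2) (by positivity)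
  obtain ⟨b, hbK, hb1, hmid⟩ := tv_mid κ hκ ε hε K
  obtain ⟨B, c0, hc0, hc02, hmid⟩ := hmid (A + 2)
  obtain ⟨cl, hcl, hVl⟩ := Vz_lower
  refine ⟨B + 1, by omega, c0, hc0, hc02, fun c hc hcc0 => ?_⟩
  have hbr : (1 : ℝ) ≤ b := by exact_mod_cast hb1
  have hκr : (1 : ℝ) ≤ κ := by exact_mod_cast hκ
  filter_upwards [hmid c hc hcc0, ev_pow_exp 3 (c / 2) (by positivity) 0,
    ev_pow_exp (x0 : ℝ) (c / 2) (by positivity) 0,
    ev_pow_exp (4 / ε ^ 2) (40 * b * c) (by positivity) (2 * (2 * κ + 1)),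
    eventually_ge_atTop ((2 * κ / cl) ^ (2 * κ)), eventually_ge_atTop (3 : ℝ)] with L hm g1 g2 g3 g4 g5
  intro X hX S μ hS N lam hlam
  rw [pow_zero, mul_one] at g1 g2
  have hL1 : 1 ≤ L := by linarith
  have hL0 : 0 < L := by linarith
  set z := zE c L with hz
  have hzle : (z : ℝ) ≤ Real.exp (c * L) := zE_le c L
  have hlog1 : c * L / 2 ≤ Real.log z := log_floor_ge (c * L) (by
    have : c / 2 * L = c * L / 2 := by ring
    rw [this] at g1
    exact g1)
  have hlog0 : 0 < Real.log z := lt_of_lt_of_le (by positivity) hlog1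
  have hz2 : 2 ≤ z := by
    by_contra h1
    push Not at h1
    have h2 : z = 0 ∨ z = 1 := by omega
    rcases h2 with h2 | h2 <;> rw [h2] at hlog0 <;> simp at hlog0
  have hz0 : (0 : ℝ) < z := by exact_mod_cast (by omega : 0 < z)
  have hlogz : Real.log z ≤ L := by
    have h1 := Real.log_le_log hz0 hzle
    rw [Real.log_exp] at h1
    nlinarith
  have hX0 : (0 : ℝ) < X := (Real.exp_pos L).trans_le hX
  have hzx0 : x0 ≤ z := by
    have h1 : Real.exp (c * L / 2) ≤ z := by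
      rw [← Real.exp_log hz0]
      exact Real.exp_le_exp.2 hlog1
    have e : c / 2 * L = c * L / 2 := by ring
    rw [e] at g2
    exact_mod_cast g2.trans h1
  have hVz : cl / L ≤ Vz z := by
    refine le_trans ?_ (hVl z hz2)
    exact div_le_div_of_nonneg_left hcl.le hlog0 hlogz
  have hlamB : L ^ B ≤ lam := (pow_le_pow_right₀ hL1 (by omega)).trans hlam
  have hlam3 : 3 ≤ lam := by
    have h1 : L ^ 1 ≤ L ^ (B + 1) := pow_le_pow_right₀ hL1 (by omega)
    rw [pow_one] at h1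
    linarith
  -- very long windows
  have hlong : ∀ T : ℕ, Real.exp (40 * b * c * L) < T → ∀ n : ℕ, Okn S μ κ z L n →
      |(SC (Sn S n) (pz z) 0 T : ℝ) - T * Wg (gam (Sn S n)) (pz z)| ≤ ε * (T * Wg (gam (Sn S n)) (pz z)) := by
    intro T hT n hOk
    have hR := hS.row n
    set V := Wg (gam (Sn S n)) (pz z) with hVd
    have hV : 1 / L ^ (2 * κ + 1) ≤ V := V_low κ z hκ (Sn S n) hR hOk.1 cl L hcl hL0 hVz g4
    have hV0 : 0 < V := lt_of_lt_of_le (by positivity) hV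
    have hT0 : (0 : ℝ) < T := (Real.exp_pos _).trans hT
    have hzT : z ^ K ≤ T := by
      have h1 : (z : ℝ) ^ K ≤ T := by
        calc (z : ℝ) ^ K ≤ (Real.exp (c * L)) ^ K := pow_le_pow_left₀ hz0.le hzle _
          _ = Real.exp (K * (c * L)) := by rw [← Real.exp_nat_mul]
          _ ≤ Real.exp (40 * b * c * L) := by
              apply Real.exp_le_exp.2
              have h2 : (K : ℝ) ≤ b := by exact_mod_cast hbK
              have h3 : (K : ℝ) * (c * L) ≤ b * (c * L) := mul_le_mul_of_nonneg_right h2 (by positivity)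
              have h4 : 0 ≤ b * (c * L) := by positivity
              linarith
          _ ≤ T := hT.le
      exact_mod_cast h1
    have h1 := hsys T z hzx0 hzT (Sn S n) hR T
    have h2 : ∏ p ∈ pz z, (1 - (nuB (Sn S n) p : ℝ) / p) = V := rfl
    rw [h2] at h1
    have h3 : √(T : ℝ) ≤ ε / 2 * (T * V) := by
      have h4 : √(T : ℝ) * √(T : ℝ) = T := Real.mul_self_sqrt hT0.le
      have h5 : 0 < √(T : ℝ) := Real.sqrt_pos.2 hT0
      have h6 : 2 / ε * L ^ (2 * κ + 1) ≤ √(T : ℝ) := by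
        apply Real.le_sqrt_of_sq_le
        calc (2 / ε * L ^ (2 * κ + 1)) ^ 2 = 4 / ε ^ 2 * L ^ (2 * (2 * κ + 1)) := by
              rw [mul_pow, ← pow_mul, div_pow]
              congr 1
              · norm_num
              · congr 1; ring
          _ ≤ Real.exp (40 * b * c * L) := g3
          _ ≤ T := hT.le
      calc √(T : ℝ) = ε / 2 * ((2 / ε * L ^ (2 * κ + 1)) * √(T : ℝ) * (1 / L ^ (2 * κ + 1))) := by field_simp
        _ ≤ ε / 2 * ((√(T : ℝ) * √(T : ℝ)) * V) := by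
            apply mul_le_mul_of_nonneg_left _ (by positivity)
            apply mul_le_mul _ hV (by positivity) (by positivity)
            exact mul_le_mul_of_nonneg_right h6 h5.le
        _ = _ := by rw [h4]
    have h7 : (((Icc 1 T).filter (fun h : ℕ => ∀ p ∈ pz z, ¬ (Sn S n) p h)).card : ℝ) = SC (Sn S n) (pz z) 0 T := by
      unfold SC
      simp only [zero_add]
    have h8 : |(SC (Sn S n) (pz z) 0 T : ℝ) - T * V| ≤ ε / 2 * (T * V) + √(T : ℝ) := by
      rw [← h7]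
      convert h1 using 5
    linarith
  set M := ⌊Real.exp (40 * b * c * L)⌋₊ with hM
  set Bd := (Ioc N (N + X)).filter (fun n => Okn S μ κ z L n ∧ ∃ T : ℕ, lam ≤ T ∧
    ε * (T * Wg (gam (Sn S n)) (pz z)) < |(SC (Sn S n) (pz z) 0 T : ℝ) - T * Wg (gam (Sn S n)) (pz z)|) with hBd
  have hsub : Bd ⊆ ((Icc 1 M).filter (fun T : ℕ => lam ≤ T)).biUnion (fun T => (Ioc N (N + X)).filter
      (fun n => Okn S μ κ z L n ∧ ε * (T * Wg (gam (Sn S n)) (pz z)) <
        |(SC (Sn S n) (pz z) 0 T : ℝ) - T * Wg (gam (Sn S n)) (pz z)|)) := by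
    intro n hn
    rw [hBd, mem_filter] at hn
    obtain ⟨hn1, hOk, T, hT1, hT2⟩ := hn
    rw [mem_biUnion]
    refine ⟨T, ?_, mem_filter.2 ⟨hn1, hOk, hT2⟩⟩
    rw [mem_filter, mem_Icc]
    refine ⟨⟨?_, ?_⟩, hT1⟩
    · have : (1 : ℝ) ≤ T := by linarith
      exact_mod_cast this
    · rw [hM]
      apply Nat.le_floor
      by_contra h1
      exact absurd (hlong T (lt_of_not_ge h1) n hOk) (not_le.2 hT2)
  calc (Bd.card : ℝ) ≤ ∑ T ∈ (Icc 1 M).filter (fun T : ℕ => lam ≤ T), (((Ioc N (N + X)).filter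
        (fun n => Okn S μ κ z L n ∧ ε * (T * Wg (gam (Sn S n)) (pz z)) <
          |(SC (Sn S n) (pz z) 0 T : ℝ) - T * Wg (gam (Sn S n)) (pz z)|)).card : ℝ) := by
        exact_mod_cast (card_le_card hsub).trans card_biUnion_le
    _ ≤ ∑ T ∈ (Icc 1 M).filter (fun T : ℕ => lam ≤ T), X / (T : ℝ) ^ (A + 2) := by
        apply sum_le_sum
        intro T hT
        rw [mem_filter, mem_Icc] at hT
        have h1 : (T : ℝ) ≤ Real.exp (40 * b * c * L) := by
          have h2 : (T : ℝ) ≤ M := by exact_mod_cast hT.1.2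
          exact h2.trans (Nat.floor_le (Real.exp_pos _).le)
        exact hm X hX T (hlamB.trans hT.2) h1 S μ hS N
    _ = X * ∑ T ∈ (Icc 1 M).filter (fun T : ℕ => lam ≤ T), (1 : ℝ) / (T : ℝ) ^ (A + 2) := by
        rw [mul_sum]
        apply sum_congr rfl
        intro T _
        ring
    _ ≤ X * (1 / lam ^ A) := mul_le_mul_of_nonneg_left (tail_sum lam (by linarith) M A) hX0.le
    _ = X / lam ^ A := by ring

end Pool.Agent.H36.TV
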