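import Mathlib
import Pool.Agent.H36.TV.AllL

/-!
The forms `n + b h`.
-/

set_option autoImplicit false

open Finset Filter

namespace Pool.Agent.H36.TV

open Pool.Agent.H36.RW Pool.Agent.H373R2.T7 Pool.Agent.H36.BF Pool.Agent.H36.BE
open Pool.Agent.H36.KT Pool.Agent.H36.LH

/-- the removed classes of `h` for a fixed `n` -/
def F0 (Bs : Finset ℤ) (n : ℕ) (p h : ℕ) : Prop := ∃ b ∈ Bs, (p : ℤ) ∣ (n : ℤ) + b * (h : ℤ)

/-- the two variable family -/
def FB (Bs : Finset ℤ) (u : ℕ) (p n x : ℕ) : Prop := F0 Bs n p (u + x)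

lemma card_class (p : ℕ) (hp : p.Prime) (β γ : ℤ) (hb : ¬ (p : ℤ) ∣ β) (x y : ℕ) (hx : x < p) (hy : y < p)
    (h1 : (p : ℤ) ∣ γ + β * x) (h2 : (p : ℤ) ∣ γ + β * y) : x = y := by
  have h3 : (p : ℤ) ∣ β * ((x : ℤ) - y) := by
    have := dvd_sub h1 h2
    have e : γ + β * x - (γ + β * y) = β * ((x : ℤ) - y) := by ring
    rwa [e] at this
  have h4 : (p : ℤ) ∣ (x : ℤ) - y := by
    rcases (Nat.prime_iff_prime_int.1 hp).dvd_or_dvd h3 with h | h
    · exact absurd h hb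
    · exact h
  have h5 : (y : ℤ) ≡ x [ZMOD p] := by
    rw [Int.modEq_iff_dvd]
    exact h4
  have h6 : y ≡ x [MOD p] := (Int.natCast_modEq_iff).1 h5
  have := Nat.ModEq.eq_of_lt_of_lt h6 hy hx
  exact this.symm

lemma exists_class (p : ℕ) (hp : p.Prime) (β γ : ℤ) (hb : ¬ (p : ℤ) ∣ β) : ∃ x : ℕ, x < p ∧ (p : ℤ) ∣ γ + β * x := by
  haveI := Fact.mk hp
  have hb0 : (β : ZMod p) ≠ 0 := by
    intro h
    exact hb ((ZMod.intCast_zmod_eq_zero_iff_dvd β p).1 h)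
  refine ⟨(-(γ : ZMod p) / (β : ZMod p)).val, ZMod.val_lt _, ?_⟩
  rw [← ZMod.intCast_zmod_eq_zero_iff_dvd]
  push_cast
  rw [ZMod.natCast_zmod_val]
  field_simp
  ring

open Classical in
lemma card_upper {ι : Type*} (p : ℕ) (hp : p.Prime) (I : Finset ι) (β γ : ι → ℤ) (hb : ∀ i ∈ I, ¬ (p : ℤ) ∣ β i) :
    ((range p).filter (fun x : ℕ => ∃ i ∈ I, (p : ℤ) ∣ γ i + β i * x)).card ≤ I.card := by
  have h1 : (range p).filter (fun x : ℕ => ∃ i ∈ I, (p : ℤ) ∣ γ i + β i * x) ⊆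
      I.biUnion (fun i => (range p).filter (fun x : ℕ => (p : ℤ) ∣ γ i + β i * x)) := by
    intro x hx
    rw [mem_filter] at hx
    obtain ⟨h2, i, hi, h3⟩ := hx
    rw [mem_biUnion]
    exact ⟨i, hi, mem_filter.2 ⟨h2, h3⟩⟩
  refine (card_le_card h1).trans (card_biUnion_le.trans ?_)
  have h2 : ∀ i ∈ I, ((range p).filter (fun x : ℕ => (p : ℤ) ∣ γ i + β i * x)).card ≤ 1 := by
    intro i hi
    rw [card_le_one]
    intro x hx y hy
    rw [mem_filter, mem_range] at hx hy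
    exact card_class p hp (β i) (γ i) (hb i hi) x y hx.1 hy.1 hx.2 hy.2
  refine (sum_le_sum h2).trans ?_
  simp

open Classical in
lemma card_exact {ι : Type*} (p : ℕ) (hp : p.Prime) (I : Finset ι) (β γ : ι → ℤ) (hb : ∀ i ∈ I, ¬ (p : ℤ) ∣ β i)
    (hd : ∀ i ∈ I, ∀ j ∈ I, i ≠ j → ¬ (p : ℤ) ∣ β i * γ j - β j * γ i) :
    ((range p).filter (fun x : ℕ => ∃ i ∈ I, (p : ℤ) ∣ γ i + β i * x)).card = I.card := by
  apply le_antisymm (card_upper p hp I β γ hb)
  have hex : ∀ i ∈ I, ∃ x : ℕ, x < p ∧ (p : ℤ) ∣ γ i + β i * x := fun i hi => exists_class p hp (β i) (γ i) (hb i hi)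
  choose! f hf using hex
  apply card_le_card_of_injOn f
  · intro i hi
    rw [mem_coe] at hi
    rw [mem_coe, mem_filter, mem_range]
    exact ⟨(hf i hi).1, i, hi, (hf i hi).2⟩
  · intro i hi j hj hij
    rw [mem_coe] at hi hj
    by_contra hne
    apply hd i hi j hj hne
    have h1 := (hf i hi).2
    have h2 := (hf j hj).2
    rw [← hij] at h2
    have h3 : β i * γ j - β j * γ i = β i * (γ j + β j * (f i : ℤ)) - β j * (γ i + β i * (f i : ℤ)) := by ring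
    rw [h3]
    exact dvd_sub (Dvd.dvd.mul_left h2 _) (Dvd.dvd.mul_left h1 _)

lemma nuB_F0 (Bs : Finset ℤ) (n p : ℕ) : nuB (F0 Bs n) p =
    ((range p).filter (fun x : ℕ => ∃ b ∈ Bs, (p : ℤ) ∣ (n : ℤ) + b * (x : ℤ))).card := by
  classical
  unfold nuB
  congr

lemma nuB_le_p (R : ℕ → ℕ → Prop) (p : ℕ) : nuB R p ≤ p := by
  classical
  unfold nuB
  exact (card_filter_le _ _).trans (by rw [card_range])

section
variable {Bs : Finset ℤ} {K : ℕ}

lemma not_dvd_b (hB : ∀ b ∈ Bs, b ≠ 0 ∧ |b| ≤ K) (p : ℕ) (hp : 2 * K < p) : ∀ b ∈ Bs, ¬ (p : ℤ) ∣ b := by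
  intro b hb hd
  have h1 := Int.le_of_dvd (abs_pos.2 (hB b hb).1) ((dvd_abs _ _).2 hd)
  have h2 := (hB b hb).2
  have : (p : ℤ) ≤ K := h1.trans h2
  have : p ≤ K := by exact_mod_cast this
  omega

lemma not_dvd_sub (hB : ∀ b ∈ Bs, b ≠ 0 ∧ |b| ≤ K) (p : ℕ) (hp : 2 * K < p) : ∀ b ∈ Bs, ∀ b' ∈ Bs, b ≠ b' →
    ¬ (p : ℤ) ∣ b - b' := by
  intro b hb b' hb' hne hd
  have h1 := Int.le_of_dvd (abs_pos.2 (sub_ne_zero.2 hne)) ((dvd_abs _ _).2 hd)
  have h2 := (hB b hb).2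
  have h3 := (hB b' hb').2
  have h4 := abs_sub b b'
  have h5 : (p : ℤ) ≤ 2 * K := by linarith
  have : p ≤ 2 * K := by exact_mod_cast h5
  omega

lemma card_Bs (hB : ∀ b ∈ Bs, b ≠ 0 ∧ |b| ≤ K) : Bs.card ≤ 2 * K := by
  have h1 : Bs ⊆ (Icc (-(K : ℤ)) K).erase 0 := by
    intro b hb
    rw [mem_erase, mem_Icc]
    exact ⟨(hB b hb).1, abs_le.1 (hB b hb).2⟩
  refine (card_le_card h1).trans ?_
  rw [card_erase_of_mem (by rw [mem_Icc]; constructor <;> omega), Int.card_Icc]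
  omega

lemma per_F0 (hB : ∀ b ∈ Bs, b ≠ 0 ∧ |b| ≤ K) (n : ℕ) : PerB (F0 Bs n) (2 * K) := by
  refine ⟨fun p h => ?_, fun p hp => ?_⟩
  · unfold F0
    have e : ∀ b : ℤ, ((p : ℤ) ∣ (n : ℤ) + b * (h : ℤ)) ↔ ((p : ℤ) ∣ (n : ℤ) + b * ((h % p : ℕ) : ℤ)) := by
      intro b
      have h1 : (h : ℤ) = p * ((h / p : ℕ) : ℤ) + ((h % p : ℕ) : ℤ) := by exact_mod_cast (Nat.div_add_mod h p).symm
      have h2 : (n : ℤ) + b * (h : ℤ) = ((n : ℤ) + b * ((h % p : ℕ) : ℤ)) + p * (b * ((h / p : ℕ) : ℤ)) := by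
        conv_lhs => rw [h1]
        ring
      rw [h2]
      exact (Int.dvd_iff_dvd_of_dvd_sub (by
        have : (n : ℤ) + b * ((h % p : ℕ) : ℤ) + p * (b * ((h / p : ℕ) : ℤ)) - ((n : ℤ) + b * ((h % p : ℕ) : ℤ)) =
          p * (b * ((h / p : ℕ) : ℤ)) := by ring
        rw [this]
        exact dvd_mul_right _ _))
    constructor
    · rintro ⟨b, hb, h1⟩
      exact ⟨b, hb, (e b).1 h1⟩
    · rintro ⟨b, hb, h1⟩
      exact ⟨b, hb, (e b).2 h1⟩
  · rcases Nat.lt_or_ge (2 * K) p with h | h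
    · rw [nuB_F0]
      refine le_trans ?_ (card_Bs hB)
      have := card_upper p hp Bs (fun b => b) (fun _ => (n : ℤ)) (not_dvd_b hB p h)
      convert this
    · exact (nuB_le_p _ _).trans h

lemma nuB_F0_eq (hB : ∀ b ∈ Bs, b ≠ 0 ∧ |b| ≤ K) (n p : ℕ) (hp : p.Prime) (hpK : 2 * K < p) (hn : ¬ p ∣ n) :
    nuB (F0 Bs n) p = Bs.card := by
  rw [nuB_F0]
  have := card_exact p hp Bs (fun b => b) (fun _ => (n : ℤ)) (not_dvd_b hB p hpK) (by
    intro b hb b' hb' hne hd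
    have e : b * (n : ℤ) - b' * (n : ℤ) = (b - b') * n := by ring
    rw [e] at hd
    rcases (Nat.prime_iff_prime_int.1 hp).dvd_or_dvd hd with h | h
    · exact not_dvd_sub hB p hpK b hb b' hb' hne h
    · exact hn (by exact_mod_cast h))
  convert this

lemma nuB_Sx (Bs : Finset ℤ) (u x p : ℕ) : nuB (Sx (FB Bs u) x) p =
    ((range p).filter (fun n : ℕ => ∃ b ∈ Bs, (p : ℤ) ∣ b * ((u + x : ℕ) : ℤ) + 1 * (n : ℤ))).card := by
  classical
  unfold nuB
  congr 1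
  ext n
  simp only [mem_filter, Sx, FB, F0, one_mul]
  constructor
  · rintro ⟨h1, b, hb, h2⟩
    exact ⟨h1, b, hb, by rw [add_comm]; exact h2⟩
  · rintro ⟨h1, b, hb, h2⟩
    exact ⟨h1, b, hb, by rw [add_comm]; exact h2⟩

lemma one_not_dvd (p : ℕ) (hp : p.Prime) : ¬ (p : ℤ) ∣ 1 := by
  intro h
  have h1 := Int.le_of_dvd one_pos h
  have h2 : (2 : ℤ) ≤ p := by exact_mod_cast hp.two_le
  linarith

lemma nuB_Sx_eq (hB : ∀ b ∈ Bs, b ≠ 0 ∧ |b| ≤ K) (u x p : ℕ) (hp : p.Prime) (hpK : 2 * K < p) (hx : ¬ p ∣ u + x) :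
    nuB (Sx (FB Bs u) x) p = Bs.card := by
  rw [nuB_Sx]
  have := card_exact p hp Bs (fun _ => (1 : ℤ)) (fun b => b * ((u + x : ℕ) : ℤ)) (fun _ _ => one_not_dvd p hp) (by
    intro b hb b' hb' hne hd
    have e : 1 * (b' * ((u + x : ℕ) : ℤ)) - 1 * (b * ((u + x : ℕ) : ℤ)) = (b' - b) * ((u + x : ℕ) : ℤ) := by ring
    rw [e] at hd
    rcases (Nat.prime_iff_prime_int.1 hp).dvd_or_dvd hd with h | h
    · exact not_dvd_sub hB p hpK b' hb' b hb (Ne.symm hne) h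
    · exact hx (by exact_mod_cast h))
  convert this

/-- the two variable family satisfies the hypotheses -/
theorem twoB_FB (hK : 1 ≤ K) (hB : ∀ b ∈ Bs, b ≠ 0 ∧ |b| ≤ K) (u : ℕ) :
    TwoB (FB Bs u) (fun _ => Bs.card) (2 * K) := by
  refine ⟨fun n => ?_, fun x => ?_, fun p => card_Bs hB, fun p hp => ?_⟩
  · exact perB_shift (per_F0 hB n) u
  · refine ⟨fun p n => ?_, fun p hp => ?_⟩
    · unfold Sx FB F0
      have e : ∀ b : ℤ, ((p : ℤ) ∣ (n : ℤ) + b * ((u + x : ℕ) : ℤ)) ↔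
          ((p : ℤ) ∣ ((n % p : ℕ) : ℤ) + b * ((u + x : ℕ) : ℤ)) := by
        intro b
        have h1 : (n : ℤ) = p * ((n / p : ℕ) : ℤ) + ((n % p : ℕ) : ℤ) := by exact_mod_cast (Nat.div_add_mod n p).symm
        conv_lhs => rw [h1]
        exact (Int.dvd_iff_dvd_of_dvd_sub (by
          have : (p : ℤ) * ((n / p : ℕ) : ℤ) + ((n % p : ℕ) : ℤ) + b * ((u + x : ℕ) : ℤ) -
            (((n % p : ℕ) : ℤ) + b * ((u + x : ℕ) : ℤ)) = p * ((n / p : ℕ) : ℤ) := by ring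
          rw [this]
          exact dvd_mul_right _ _))
      constructor
      · rintro ⟨b, hb, h1⟩
        exact ⟨b, hb, (e b).1 h1⟩
      · rintro ⟨b, hb, h1⟩
        exact ⟨b, hb, (e b).2 h1⟩
    · rw [nuB_Sx]
      refine le_trans ?_ (card_Bs hB)
      have := card_upper p hp Bs (fun _ => (1 : ℤ)) (fun b => b * ((u + x : ℕ) : ℤ)) (fun _ _ => one_not_dvd p hp)
      convert this
  · rcases Nat.lt_or_ge (2 * K) p with h | h
    · have h1 : ((range p).filter (fun x => nuB (Sx (FB Bs u) x) p ≠ Bs.card)).card ≤ 1 := by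
        rw [card_le_one]
        intro x hx y hy
        rw [mem_filter, mem_range] at hx hy
        have h2 : ∀ x : ℕ, nuB (Sx (FB Bs u) x) p ≠ Bs.card → (p : ℤ) ∣ (u : ℤ) + 1 * x := by
          intro x hx
          by_contra hcon
          apply hx
          apply nuB_Sx_eq hB u x p hp h
          intro h3
          apply hcon
          rw [one_mul]
          exact_mod_cast h3
        exact card_class p hp 1 u (one_not_dvd p hp) x y hx.1 hy.1 (h2 x hx.2) (h2 y hy.2)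
      omega
    · exact ((card_filter_le _ _).trans (by rw [card_range])).trans h

lemma Sn_FB (u n : ℕ) : Sn (FB Bs u) n = fun p h => F0 Bs n p (u + h) := rfl

lemma nuB_Sn (hB : ∀ b ∈ Bs, b ≠ 0 ∧ |b| ≤ K) (u n p : ℕ) (hp : 0 < p) : nuB (Sn (FB Bs u) n) p = nuB (F0 Bs n) p := by
  rw [Sn_FB]
  exact nuB_shift (per_F0 hB n) p u hp

/-- the regularity of `n` -/
lemma okn_FB (hB : ∀ b ∈ Bs, b ≠ 0 ∧ |b| ≤ K) (u n z : ℕ) (hn : 0 < n) (L : ℝ)
    (hnL : Real.log n ≤ Real.log 2 * L ^ 2) (hAd : ∀ p : ℕ, p.Prime → nuB (F0 Bs n) p < p) :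
    Okn (FB Bs u) (fun _ => Bs.card) (2 * K) z L n := by
  refine ⟨fun p hp => ?_, ?_⟩
  · rw [nuB_Sn hB u n p hp.pos]
    exact hAd p hp
  · have h1 : (pz z).filter (fun p => 2 * (2 * K) < p ∧ nuB (Sn (FB Bs u) n) p ≠ Bs.card) ⊆ n.primeFactors := by
      intro p hp
      rw [mem_filter] at hp
      obtain ⟨h2, h3, h4⟩ := hp
      have hpp := (mem_pz.1 h2).2
      rw [Nat.mem_primeFactors]
      refine ⟨hpp, ?_, by omega⟩
      by_contra h5
      apply h4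
      rw [nuB_Sn hB u n p hpp.pos]
      exact nuB_F0_eq hB n p hpp (by omega) h5
    have h2 : (2 : ℝ) ^ n.primeFactors.card ≤ n := by
      have h3 : 2 ^ n.primeFactors.card ≤ ∏ p ∈ n.primeFactors, p := by
        rw [← prod_const]
        apply prod_le_prod'
        intro p hp
        exact (Nat.prime_of_mem_primeFactors hp).two_le
      have h4 : ∏ p ∈ n.primeFactors, p ≤ n := Nat.le_of_dvd hn (Nat.prod_primeFactors_dvd n)
      exact_mod_cast h3.trans h4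
    have h3 := Real.log_le_log (by positivity) h2
    rw [Real.log_pow] at h3
    have hl2 : 0 < Real.log 2 := Real.log_pos (by norm_num)
    have h4 : (n.primeFactors.card : ℝ) ≤ L ^ 2 := by
      have h5 : Real.log 2 * (n.primeFactors.card : ℝ) ≤ Real.log 2 * L ^ 2 := by linarith
      exact le_of_mul_le_mul_left h5 hl2
    refine le_trans ?_ h4
    exact_mod_cast card_le_card h1

/-- the irregular case -/
lemma bad_FB {R : ℕ → ℕ → Prop} {κ : ℕ} (hR : PerB R κ) (z : ℕ) (hz : κ ≤ z) (p : ℕ) (hp : p.Prime) (h : p ≤ nuB R p) (T : ℕ) :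
    SC R (pz z) 0 T = 0 ∧ Wg (gam R) (pz z) = 0 := by
  classical
  have h1 := hR.few p hp
  have hpz : p ∈ pz z := mem_pz.2 ⟨by omega, hp⟩
  have heq : nuB R p = p := le_antisymm (nuB_le_p R p) h
  have hall : ∀ x : ℕ, R p x := by
    intro x
    have h2 : ((range p).filter (fun r => R p r)).card = (range p).card := by
      rw [card_range]
      have : nuB R p = ((range p).filter (fun r => R p r)).card := by
        unfold nuB
        congr
      rw [← this]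
      exact heq
    have h3 := (card_filter_eq_iff).1 h2
    rw [hR.per]
    exact h3 (x % p) (mem_range.2 (Nat.mod_lt _ hp.pos))
  constructor
  · unfold SC
    rw [card_eq_zero, filter_eq_empty_iff]
    intro x _ h2
    exact h2 p hpz (hall _)
  · unfold Wg
    apply prod_eq_zero hpz
    unfold gam
    rw [heq, div_self (by exact_mod_cast hp.ne_zero), sub_self]

end

end Pool.Agent.H36.TV
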